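import Pool.Agent.Helper97.LCY.D0

/-!
Row D7: the last blow-up, linear systems and classes.
-/

set_option autoImplicit false

open Polynomial Pool.Agent.Helper82.LCY

namespace LCY.H97

noncomputable section

variable {L : Type} [Field L] [Algebra ℂ L]

theorem trunc_R {k : ℕ} (T : PStr L (k + 1)) (i : Fin k) :
    (T.trunc k (Nat.le_succ k)).R i = T.R i.castSucc := rfl

theorem last_mem {k : ℕ} (T : PStr L (k + 1)) :
    T.R (Fin.last k) ∈ (T.trunc k (Nat.le_succ k)).X := by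
  rw [surf_trunc]
  exact T.valid (Fin.last k)

/-- The class of a divisor, componentwise. -/
theorem clD_fst {k : ℕ} (T : PStr L k) {D : DVal L → ℤ} (h : T.IsDiv D) :
    (T.clD D).1 = ∑ᶠ v ∈ T.C, D v * deg T.S v := by
  unfold PStr.clD
  have h1 := (AddMonoidHom.map_finsum_mem' (AddMonoidHom.fst ℤ (Fin k → ℤ))
    (s := T.C) (f := fun v => D v • T.cl v) (supp_fin h _))
  rw [AddMonoidHom.coe_fst] at h1
  rw [h1]
  refine finsum_congr fun v => finsum_congr fun _ => ?_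
  simp [PStr.cl]

theorem clD_snd {k : ℕ} (T : PStr L k) {D : DVal L → ℤ} (h : T.IsDiv D) (i : Fin k) :
    (T.clD D).2 i = ∑ᶠ v ∈ T.C, D v * mul (T.R i) v := by
  unfold PStr.clD
  have h1 := (AddMonoidHom.map_finsum_mem' ((Pi.evalAddMonoidHom (fun _ : Fin k => ℤ) i).comp
    (AddMonoidHom.snd ℤ (Fin k → ℤ)))
    (s := T.C) (f := fun v => D v • T.cl v) (supp_fin h _))
  have h2 : ∀ c : Cl ℤ (Fin k), ((Pi.evalAddMonoidHom (fun _ : Fin k => ℤ) i).comp
    (AddMonoidHom.snd ℤ (Fin k → ℤ))) c = c.2 i := fun c => rfl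
  simp only [h2] at h1
  rw [h1]
  refine finsum_congr fun v => finsum_congr fun _ => ?_
  simp [PStr.cl]

theorem finsum_insert' {T T' : Set (DVal L)} {w : DVal L} (hT : T = T' ∪ {w})
    (hw : w ∉ T') (f : DVal L → ℤ) (hf : (T' ∩ Function.support f).Finite) :
    ∑ᶠ v ∈ T, f v = ∑ᶠ v ∈ T', f v + f w := by
  have h1 : T = insert w T' := by rw [hT, Set.union_singleton]
  rw [h1, finsum_mem_insert' f hw hf, add_comm]

/-- The curves of the last blow-up. -/
theorem curves_succ (h5 : ST_A5) (h16 : ST_A16) (h17 : ST_A17) (h18 : ST_A18) {k : ℕ}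
    (T : PStr L (k + 1)) : ∃ w ∈ T.C, IsOrd (T.R (Fin.last k)) w ∧
      T.C = (T.trunc k (Nat.le_succ k)).C ∪ {w} ∧ w ∉ (T.trunc k (Nat.le_succ k)).C := by
  obtain ⟨P, hP⟩ := h16 L (k + 1) T k (T.R (Fin.last k)) (T.valid (Fin.last k))
  have hw : IsOrd (T.R (Fin.last k)) (nrm P.ord) := by rw [← hP]; exact isOrd_nrm P
  have hwC : nrm P.ord ∈ T.C := ⟨nrm_zero _, (h17 _ _ T _).2 (Or.inr ⟨_, hw⟩)⟩
  have hnot : nrm P.ord ∉ (T.trunc k (Nat.le_succ k)).C := by
    rintro ⟨-, h1⟩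
    obtain ⟨h2, -, h3, -⟩ := h18 L (k + 1) T (Fin.last k) _ hw
    rcases (h17 _ _ _ _).1 h1 with h4 | ⟨i, h4⟩
    · exact h2 h4
    · have h5 := h3 i.castSucc h4
      exact absurd h5 (Fin.castSucc_lt_last i).ne
  refine ⟨_, hwC, hw, ?_, hnot⟩
  ext v
  constructor
  · rintro ⟨h0, h1⟩
    rcases (h17 _ _ _ _).1 h1 with h2 | ⟨i, h2⟩
    · left
      exact ⟨h0, (h17 _ _ _ _).2 (Or.inl h2)⟩
    · rcases Fin.eq_castSucc_or_eq_last i with ⟨j, rfl⟩ | rfl
      · left
        exact ⟨h0, (h17 _ _ _ _).2 (Or.inr ⟨j, h2⟩)⟩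
      · right
        exact eq_of_same h0 (nrm_zero _) (h5 L _ _ _ h2 hw)
  · rintro (h | h)
    · exact ⟨h.1, cur_trunc h17 T k (Nat.le_succ k) h.2⟩
    · rw [Set.mem_singleton_iff] at h
      rw [h]; exact hwC

/-- **D7.** -/
theorem st_D7 (h5 : ST_A5) (h9 : ST_A9) (h10 : ST_A10) (h16 : ST_A16) (h17 : ST_A17)
    (h18 : ST_A18) : ST_D7 := by
  classical
  intro L _ _ k T D hD
  set T' := T.trunc k (Nat.le_succ k) with hT'
  obtain ⟨w, hwC, hw, hC, hwn⟩ := curves_succ h5 h16 h17 h18 T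
  have hD' : T'.IsDiv D := by
    refine hD.subset ?_
    rintro v ⟨hv, h0⟩
    refine ⟨?_, h0⟩
    rw [hC]; exact Or.inl hv
  refine ⟨hD', w, hwC, hw, hC, hwn, ?_⟩
  intro t ht
  obtain ⟨P, hP⟩ := h16 L (k + 1) T k (T.R (Fin.last k)) (T.valid (Fin.last k))
  obtain ⟨hdw1, hdw2, hdw3, hdw4, -⟩ := h18 L (k + 1) T (Fin.last k) w hw
  have hfs : ∀ c : DVal L → ℤ, (T'.C ∩ Function.support fun v => D v * c v).Finite :=
    fun c => supp_fin hD' c
  -- degrees
  have e1 : (T.clD D).1 = (T'.clD D).1 := by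
    rw [clD_fst T hD, clD_fst T' hD', finsum_insert' hC hwn _ (hfs _), hdw2, mul_zero,
      add_zero]
    rfl
  -- multiplicities at the former points
  have e2 : ∀ i : Fin k, (T.clD D).2 i.castSucc = (T'.clD D).2 i := by
    intro i
    rw [clD_snd T hD, clD_snd T' hD', finsum_insert' hC hwn _ (hfs _)]
    have h0 : mul (T.R i.castSucc) w = 0 := by
      unfold mul
      rw [if_neg, if_neg]
      · exact hdw4 i.castSucc (Fin.castSucc_lt_last i)
      · intro h
        exact absurd (hdw3 _ h) (Fin.castSucc_lt_last i).ne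
    rw [h0, mul_zero, add_zero]
    rfl
  -- the last multiplicity
  have hsub : Thr (T.R (Fin.last k)) ⊆ T'.C :=
    fun v hv => ⟨hv.1, ⟨_, last_mem T, hv.2⟩⟩
  have hnot : ∀ v ∈ T'.C, ¬ IsOrd (T.R (Fin.last k)) v := by
    intro v hv ho
    apply hwn
    rw [← eq_of_same hv.1 hwC.1 (h5 L _ _ _ ho hw)]
    exact hv
  have e3 : (T.clD D).2 (Fin.last k) = w.v t - D w := by
    rw [clD_snd T hD, finsum_insert' hC hwn _ (hfs _)]
    have h1 : mul (T.R (Fin.last k)) w = -1 := by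
      unfold mul
      rw [if_pos hw]
    have h2 : w.v t = ∑ᶠ v ∈ T'.C, D v * mul (T.R (Fin.last k)) v := by
      have h3 := (h10 L P t ht.1).2 w (by rw [hP]; exact hw)
      rw [hP] at h3
      rw [h3]
      have h4 : ∑ᶠ v ∈ Thr (T.R (Fin.last k)), v.v t * mul (T.R (Fin.last k)) v
          = ∑ᶠ v ∈ Thr (T.R (Fin.last k)), D v * mul (T.R (Fin.last k)) v := by
        refine finsum_congr fun v => finsum_congr fun hv => ?_
        rw [ht.2 v hv]
      rw [h4]
      apply finsum_mem_inter_support_eq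
      ext v
      constructor
      · rintro ⟨h5, h6⟩
        exact ⟨hsub h5, h6⟩
      · rintro ⟨h5, h6⟩
        refine ⟨⟨h5.1, ?_⟩, h6⟩
        by_contra h7
        apply h6
        simp only
        unfold mul
        rw [if_neg (hnot v h5), if_neg h7, mul_zero]
    rw [h1, ← h2]; ring
  refine ⟨e1, e2, e3, ?_⟩
  intro h
  have hmem : h ∈ T.H D ↔ h ∈ T'.H D ∧ (h = 0 ∨ 0 ≤ w.v h + D w) := by
    constructor
    · intro h1
      refine ⟨fun v hv => h1 v ?_, h1 w hwC⟩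
      rw [hC]; exact Or.inl hv
    · rintro ⟨h1, h2⟩ v hv
      rw [hC] at hv
      rcases hv with h3 | h3
      · exact h1 v h3
      · rw [Set.mem_singleton_iff] at h3
        rw [h3]; exact h2
  rw [hmem]
  have hR : h ∈ T'.H D → h * t ∈ T.R (Fin.last k) := by
    intro h1
    by_cases h0 : h = 0
    · rw [h0, zero_mul]; exact Subalgebra.zero_mem _
    rw [← hP, h9]
    intro v hv
    have hv' : nrm v ∈ Thr (T.R (Fin.last k)) :=
      ⟨nrm_zero v, through_congr (nrm_same v) (by rw [← hP]; exact hv)⟩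
    right
    rw [v.map_mul _ _ h0 ht.1]
    have h2 := (h1 _ (hsub hv')).resolve_left h0
    have h3 := ht.2 _ hv'
    rw [← nrm_same v h h0] at h2
    rw [← nrm_same v t ht.1] at h3
    rw [h3]; exact h2
  rw [e3]
  constructor
  · rintro ⟨h1, h2⟩
    refine ⟨h1, hR h1, ?_⟩
    rcases h2 with h2 | h2
    · exact Or.inl h2
    · by_cases h0 : h = 0
      · exact Or.inl h0
      right
      rw [w.map_mul _ _ h0 ht.1]; omega
  · rintro ⟨h1, -, h2⟩
    refine ⟨h1, ?_⟩
    rcases h2 with h2 | h2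
    · exact Or.inl h2
    · by_cases h0 : h = 0
      · exact Or.inl h0
      right
      rw [w.map_mul _ _ h0 ht.1] at h2; omega

end

end LCY.H97
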