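import Pool.Agent.Helper97.LCY.Jet
import Pool.Agent.Helper97.LCY.D7

/-!
Row C1: the Riemann-Roch inequality by counting conditions.
-/

set_option autoImplicit false

open Polynomial Pool.Agent.Helper82.LCY

namespace LCY.H97

noncomputable section

variable {L : Type} [Field L] [Algebra ℂ L]

/-- Functions of the local ring of order at least `μ`. -/
def Mm (R : Subalgebra ℂ L) (w : DVal L) (μ : ℤ) : Submodule ℂ L where
  carrier := {z | z ∈ R ∧ (z = 0 ∨ μ ≤ w.v z)}
  zero_mem' := ⟨R.zero_mem, Or.inl rfl⟩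
  add_mem' := by
    rintro a b ⟨ha, ha'⟩ ⟨hb, hb'⟩
    refine ⟨R.add_mem ha hb, ?_⟩
    by_cases h : a + b = 0
    · exact Or.inl h
    rcases ha' with h1 | h1
    · rw [h1, zero_add] at h ⊢
      exact hb'
    rcases hb' with h2 | h2
    · rw [h2, add_zero] at h ⊢
      exact Or.inr h1
    by_cases h3 : a = 0
    · rw [h3, zero_add] at h ⊢
      exact Or.inr h2
    by_cases h4 : b = 0
    · rw [h4, add_zero] at h ⊢
      exact Or.inr h1
    right
    exact (le_min h1 h2).trans (w.map_add a b h3 h4 h)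
  smul_mem' := by
    rintro c a ⟨ha, ha'⟩
    refine ⟨R.smul_mem ha c, ?_⟩
    by_cases hc : c = 0
    · left; rw [hc, zero_smul]
    rcases ha' with h1 | h1
    · left; rw [h1, smul_zero]
    by_cases h0 : a = 0
    · left; rw [h0, smul_zero]
    right
    rw [Algebra.smul_def, w.map_const_mul hc h0]
    exact h1

theorem mem_Mm {R : Subalgebra ℂ L} {w : DVal L} {μ : ℤ} {z : L} :
    z ∈ Mm R w μ ↔ z ∈ R ∧ (z = 0 ∨ μ ≤ w.v z) := Iff.rfl

/-- Counting the conditions of a multiplicity. -/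
theorem count (P : Coord L) (w : DVal L)
    (hw : ∀ f : ℂ[X][X], f ≠ 0 → w.v (ev P.x P.y f) = ordn f) (t : L) (μ : ℕ)
    (H H' : Submodule ℂ L) [Module.Finite ℂ H'] (hR : ∀ h ∈ H', h * t ∈ P.loc)
    (hH : ∀ h, h ∈ H ↔ h ∈ H' ∧ h * t ∈ P.loc ∧ (h = 0 ∨ (μ : ℤ) ≤ w.v (h * t))) (ht : t ≠ 0) :
    2 * Module.finrank ℂ H' ≤ 2 * Module.finrank ℂ H + μ * (μ + 1) := by
  classical
  have hle : H ≤ H' := fun h hh => ((hH h).1 hh).1
  set M := Mm P.loc w μ with hM
  set φ : H' →ₗ[ℂ] L ⧸ M :=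
    M.mkQ.comp ((LinearMap.mulRight ℂ t).comp H'.subtype) with hφ
  have hφa : ∀ h : H', φ h = M.mkQ ((h : L) * t) := fun h => rfl
  have hker : LinearMap.ker φ = Submodule.comap H'.subtype H := by
    ext h
    rw [LinearMap.mem_ker, hφa, Submodule.mkQ_apply, Submodule.Quotient.mk_eq_zero, hM, mem_Mm,
      Submodule.mem_comap, Submodule.subtype_apply, hH]
    constructor
    · rintro ⟨h1, h2⟩
      refine ⟨h.2, h1, ?_⟩
      rcases h2 with h2 | h2
      · exact Or.inl ((mul_eq_zero.1 h2).resolve_right ht)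
      · exact Or.inr h2
    · rintro ⟨-, h1, h2⟩
      refine ⟨h1, ?_⟩
      rcases h2 with h2 | h2
      · exact Or.inl (by rw [h2, zero_mul])
      · exact Or.inr h2
  have hrange : LinearMap.range φ ≤ (Vm P μ).map M.mkQ := by
    rintro _ ⟨h, rfl⟩
    obtain ⟨q, h1, h2⟩ := jet P w hw (hR h h.2) μ
    refine ⟨ev P.x P.y q, ev_mem_Vm P h1, ?_⟩
    rw [hφa, ← sub_eq_zero, ← map_sub, Submodule.mkQ_apply, Submodule.Quotient.mk_eq_zero,
      ← neg_mem_iff, neg_sub, hM, mem_Mm]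
    exact ⟨P.loc.sub_mem (hR h h.2) (P.ev_mem_loc q), h2⟩
  have h1 : Module.finrank ℂ (LinearMap.range φ) ≤ Module.finrank ℂ (Vm P μ) :=
    (Submodule.finrank_mono hrange).trans (Submodule.finrank_map_le _ _)
  have h2 := LinearMap.finrank_range_add_finrank_ker φ
  have h3 : Module.finrank ℂ (LinearMap.ker φ) = Module.finrank ℂ H := by
    rw [hker]
    exact (Submodule.comapSubtypeEquivOfLe hle).finrank_eq
  have h4 := finrank_Vm_le P μ
  omega

/-! ### The plane -/

/-- A function without poles along the affine curves is a polynomial. -/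
theorem exists_pol_of_int (S : Coord L) {z : L} (hz : z ≠ 0)
    (h : ∀ (p : ℂ[X][X]) (hp : Prime p), 0 ≤ (S.pval p hp).v z) : ∃ q, z = ev S.x S.y q := by
  obtain ⟨⟨a, b⟩, ha, hb, h1⟩ := H62.rep S hz
  dsimp only at ha hb h1
  obtain ⟨a', b', c', h2, h3, h4⟩ := UniqueFactorizationMonoid.exists_reduced_factors' a b hb
  have hc0 : c' ≠ 0 := by rintro rfl; rw [zero_mul] at h3; exact ha h3.symm
  have ha0 : a' ≠ 0 := by rintro rfl; rw [mul_zero] at h3; exact ha h3.symm
  have hb0 : b' ≠ 0 := by rintro rfl; rw [mul_zero] at h4; exact hb h4.symm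
  have h5 : z = ev S.x S.y a' / ev S.x S.y b' := by
    rw [h1, ← h3, ← h4, map_mul, map_mul, mul_div_mul_left _ _ (S.ne hc0)]
  by_cases hu : IsUnit b'
  · obtain ⟨u, hu⟩ := hu
    refine ⟨a' * (↑u⁻¹ : ℂ[X][X]), ?_⟩
    rw [h5, map_mul, div_eq_mul_inv]
    congr 1
    rw [← hu]
    exact inv_eq_of_mul_eq_one_right (by rw [← map_mul, Units.mul_inv, map_one])
  · exfalso
    obtain ⟨p, hp, hpb⟩ := WfDvdMonoid.exists_irreducible_factor hu hb0
    have hpa : ¬ p ∣ a' := fun h6 => hp.not_isUnit (h2 h6 hpb)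
    have h6 := h p hp.prime
    change 0 ≤ H62.pv S p z at h6
    rw [H62.pv_eq S hp.prime ha0 hb0 h5, H62.mult_zero hpa] at h6
    have h7 : 1 ≤ multiplicity p b' := by
      rw [← H62.le_mult hp.prime hb0, pow_one]; exact hpb
    push_cast at h6
    omega

open Classical in
/-- The divisor of the line at infinity. -/
def dinf (S : Coord L) (v : DVal L) : ℤ := if IsInf S v then 1 else 0

theorem isDiv_dinf {k : ℕ} (T : PStr L k) : T.IsDiv (dinf T.S) := by
  refine (Set.finite_singleton (nrm T.S.inf)).subset ?_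
  rintro v ⟨hv, h⟩
  have h1 : IsInf T.S v := by
    by_contra hc
    exact h (by unfold dinf; rw [if_neg hc])
  exact eq_of_same hv.1 (nrm_zero _) (isInf_unique h1 (isInf_nrm _))

theorem inf_mem (h17 : ST_A17) {k : ℕ} (T : PStr L k) : nrm T.S.inf ∈ T.C :=
  ⟨nrm_zero _, (h17 _ _ T _).2 (Or.inl (Or.inl (isInf_nrm _)))⟩

theorem clD_dinf (h17 : ST_A17) {k : ℕ} (T : PStr L k) : (T.clD (dinf T.S)).1 = 1 := by
  rw [clD_fst T (isDiv_dinf T)]
  have h1 : ∑ᶠ v ∈ T.C, dinf T.S v * deg T.S v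
      = ∑ᶠ v ∈ ({nrm T.S.inf} : Set (DVal L)), dinf T.S v * deg T.S v := by
    apply finsum_mem_inter_support_eq
    ext v
    constructor
    · rintro ⟨hv, h2⟩
      refine ⟨?_, h2⟩
      have h3 : IsInf T.S v := by
        by_contra hc
        exact h2 (by simp only [dinf]; rw [if_neg hc, zero_mul])
      exact eq_of_same hv.1 (nrm_zero _) (isInf_unique h3 (isInf_nrm _))
    · rintro ⟨hv, h2⟩
      rw [Set.mem_singleton_iff] at hv
      exact ⟨by rw [hv]; exact inf_mem h17 T, h2⟩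
  rw [h1, finsum_mem_singleton]
  unfold dinf deg
  rw [if_pos (isInf_nrm _), if_pos (isInf_nrm _)]
  rfl

theorem adic_nonneg {S : Coord L} {g : ℂ[X][X]} {v : DVal L} (h : IsAdic S g v) {q : ℂ[X][X]}
    (hq : q ≠ 0) : 0 ≤ v.v (ev S.x S.y q) := by
  rw [isAdic_same h _ (S.ne hq), S.pval_ev h.1.prime hq]
  positivity

theorem adic_not_inf {S : Coord L} {g : ℂ[X][X]} {v : DVal L} (h : IsAdic S g v) :
    ¬ IsInf S v := by
  intro hi
  have h1 := h.2 1 1 (fun h1 => h.1.not_isUnit (isUnit_of_dvd_one h1))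
  rw [pow_one, mul_one, hi g h.1.ne_zero] at h1
  push_cast at h1
  omega

theorem exps_inj (μ : ℕ) : Function.Injective
    (fun a : Ix μ => (((a.2 : ℕ), (a.1 : ℕ) - (a.2 : ℕ)) : ℕ × ℕ)) := by
  rintro ⟨⟨n, hn⟩, ⟨i, hi⟩⟩ ⟨⟨n', hn'⟩, ⟨i', hi'⟩⟩ h
  simp only [Prod.mk.injEq] at h
  obtain ⟨h1, h2⟩ := h
  subst h1
  have hi2 : i < n + 1 := hi
  have hi3 : i < n' + 1 := hi'
  have h3 : n = n' := by omega
  subst h3
  rfl

/-- The monomials are linearly independent. -/
theorem linInd_mon (P : Coord L) (μ : ℕ) : LinearIndependent ℂ (mon P (μ := μ)) := by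
  classical
  rw [Fintype.linearIndependent_iff]
  intro c hc a
  set F : ℂ[X][X] := ∑ b : Ix μ, monomial ((b.1 : ℕ) - (b.2 : ℕ)) (monomial (b.2 : ℕ) (c b)) with hF
  have h1 : ev P.x P.y F = 0 := by
    rw [hF, map_sum, ← hc]
    refine Finset.sum_congr rfl fun b _ => ?_
    rw [ev_monomial, Algebra.smul_def, mon, mul_assoc]
  have h2 : F = 0 := by
    by_contra h
    exact P.ne h h1
  have h3 : cf F ((a.2 : ℕ), (a.1 : ℕ) - (a.2 : ℕ)) = c a := by
    rw [hF]
    unfold cf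
    rw [finsetSum_coeff, finsetSum_coeff, Finset.sum_eq_single a]
    · have := cf_monomial (a.2 : ℕ) ((a.1 : ℕ) - (a.2 : ℕ)) (c a) ((a.2 : ℕ), (a.1 : ℕ) - (a.2 : ℕ))
      unfold cf at this
      rw [this, if_pos rfl]
    · intro b _ hb
      have := cf_monomial (b.2 : ℕ) ((b.1 : ℕ) - (b.2 : ℕ)) (c b) ((a.2 : ℕ), (a.1 : ℕ) - (a.2 : ℕ))
      unfold cf at this
      rw [this, if_neg]
      intro h
      exact hb (exps_inj μ h.symm)
    · intro h; exact absurd (Finset.mem_univ a) h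
  rw [← h3, h2, H62.cf_zero]

/-- The case of the plane. -/
theorem base (h17 : ST_A17) (hB3 : ST_B3) (T : PStr L 0) (D : DVal L → ℤ) (hD : T.IsDiv D) :
    Module.Finite ℂ (T.H D) ∧
    (-2 ≤ (T.clD D).1 → chi2 (T.clD D) ≤ 2 * (Module.finrank ℂ (T.H D) : ℤ)) := by
  classical
  set d := (T.clD D).1 with hd
  have hD1 : T.IsDiv (fun v => D v + (-d) * dinf T.S v) :=
    isDiv_add hD (isDiv_smul (-d) (isDiv_dinf T))
  have hcl : T.clD (fun v => D v + (-d) * dinf T.S v) = 0 := by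
    rw [clD_add hD (isDiv_smul (-d) (isDiv_dinf T)), clD_smul (-d) (isDiv_dinf T)]
    refine Prod.ext ?_ (funext fun i => i.elim0)
    rw [Prod.fst_add, Prod.smul_fst, clD_dinf h17, ← hd]
    simp
  obtain ⟨f, hf0, hf⟩ := hB3 L 0 T _ hD1 hcl
  have hmem : ∀ h : L, h ∈ T.H D ↔ h = 0 ∨ ∃ q : ℂ[X][X], q ≠ 0 ∧ h * f = ev T.S.x T.S.y q ∧
      (tdeg q : ℤ) ≤ d := by
    intro h
    by_cases h0 : h = 0
    · rw [h0]
      exact ⟨fun _ => Or.inl rfl, fun _ => Submodule.zero_mem _⟩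
    constructor
    · intro hh
      right
      obtain ⟨q, hq⟩ := exists_pol_of_int T.S (mul_ne_zero h0 hf0) (fun p hp => by
        have hpC : T.S.pval p hp ∈ T.C :=
          ⟨pval_zero _ _, (h17 _ _ T _).2 (Or.inl (Or.inr ⟨p, isAdic_pval _ hp⟩))⟩
        have h1 := (hh _ hpC).resolve_left h0
        have h2 := hf _ hpC
        have h3 : dinf T.S (T.S.pval p hp) = 0 := by
          unfold dinf
          rw [if_neg (adic_not_inf (isAdic_pval _ hp))]
        rw [h3] at h2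
        rw [DVal.map_mul _ _ _ h0 hf0, h2]
        linarith)
      have hq0 : q ≠ 0 := by
        rintro rfl
        rw [map_zero] at hq
        exact mul_ne_zero h0 hf0 hq
      refine ⟨q, hq0, hq, ?_⟩
      have h1 := (hh _ (inf_mem h17 T)).resolve_left h0
      have h2 := hf _ (inf_mem h17 T)
      have h3 : dinf T.S (nrm T.S.inf) = 1 := by
        unfold dinf
        rw [if_pos (isInf_nrm _)]
      have h4 := isInf_nrm T.S q hq0
      rw [← hq, DVal.map_mul _ _ _ h0 hf0, h2, h3] at h4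
      linarith
    · rintro (h1 | ⟨q, hq0, hq, hqd⟩)
      · exact absurd h1 h0
      · intro v hv
        right
        have h2 := hf v hv
        have h3 : v.v h = v.v (ev T.S.x T.S.y q) - v.v f := by
          rw [← hq, DVal.map_mul _ _ _ h0 hf0]; ring
        rcases (h17 _ _ T _).1 hv.2 with (h4 | ⟨g, h4⟩) | ⟨i, -⟩
        · have h5 : dinf T.S v = 1 := by unfold dinf; rw [if_pos h4]
          have h6 := h4 q hq0
          rw [h5] at h2
          rw [h3, h6, h2]; linarith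
        · have h5 : dinf T.S v = 0 := by unfold dinf; rw [if_neg (adic_not_inf h4)]
          have h6 := adic_nonneg h4 hq0
          rw [h5] at h2
          rw [h3, h2]; linarith
        · exact i.elim0
  -- finiteness
  have hle : T.H D ≤ (Vm T.S (d + 1).toNat).map (LinearMap.mulRight ℂ f⁻¹) := by
    intro h hh
    rcases (hmem h).1 hh with h1 | ⟨q, hq0, hq, hqd⟩
    · rw [h1]; exact Submodule.zero_mem _
    · refine ⟨ev T.S.x T.S.y q, ev_mem_Vm _ ?_, ?_⟩
      · intro e he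
        have := tdeg_le he
        omega
      · rw [LinearMap.mulRight_apply, ← hq, mul_assoc, mul_inv_cancel₀ hf0, mul_one]
  have hfin : Module.Finite ℂ (T.H D) := Submodule.finiteDimensional_of_le hle
  refine ⟨hfin, fun h2 => ?_⟩
  have hchi : chi2 (T.clD D) = (d + 1) * (d + 2) := by
    unfold chi2
    rw [← hd]
    simp
  rw [hchi]
  by_cases hneg : d < 0
  · have h3 : (d + 1) * (d + 2) = 0 := by
      have : d = -1 ∨ d = -2 := by omega
      rcases this with h | h <;> rw [h] <;> norm_num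
    rw [h3]; positivity
  obtain ⟨n, hn⟩ : ∃ n : ℕ, d = n := ⟨d.toNat, by omega⟩
  have hmon : ∀ a : Ix (n + 1), mon T.S a * f⁻¹ ∈ T.H D := by
    intro a
    rw [hmem]
    right
    refine ⟨monomial ((a.1 : ℕ) - (a.2 : ℕ)) (monomial (a.2 : ℕ) 1), ?_, ?_, ?_⟩
    · intro h
      have h1 := cf_monomial (a.2 : ℕ) ((a.1 : ℕ) - (a.2 : ℕ)) 1 ((a.2 : ℕ), (a.1 : ℕ) - (a.2 : ℕ))
      rw [h, if_pos rfl, H62.cf_zero] at h1
      exact one_ne_zero h1.symm
    · rw [mul_assoc, inv_mul_cancel₀ hf0, mul_one, ev_monomial, map_one, one_mul]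
      rfl
    · rw [hn]
      have : tdeg (monomial ((a.1 : ℕ) - (a.2 : ℕ)) (monomial (a.2 : ℕ) (1 : ℂ))) ≤ n := by
        unfold tdeg
        apply Finset.sup_le
        intro e he
        rw [mem_bs, cf_monomial] at he
        have h1 : e = ((a.2 : ℕ), (a.1 : ℕ) - (a.2 : ℕ)) := by
          by_contra hc
          rw [if_neg hc] at he
          exact he rfl
        have h2 := a.1.2
        have h3 := a.2.2
        rw [h1]
        simp only
        omega
      exact_mod_cast this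
  have hli : LinearIndependent ℂ (fun a : Ix (n + 1) => (⟨mon T.S a * f⁻¹, hmon a⟩ : T.H D)) := by
    apply LinearIndependent.of_comp (T.H D).subtype
    have h3 : ((T.H D).subtype ∘ fun a : Ix (n + 1) => (⟨mon T.S a * f⁻¹, hmon a⟩ : T.H D))
        = (LinearMap.mulRight ℂ f⁻¹) ∘ mon T.S (μ := n + 1) := by
      funext a
      simp
    rw [h3]
    refine (linInd_mon T.S (n + 1)).map' (LinearMap.mulRight ℂ f⁻¹) ?_
    rw [LinearMap.ker_eq_bot]
    intro a b hab
    rw [LinearMap.mulRight_apply, LinearMap.mulRight_apply] at hab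
    exact mul_right_cancel₀ (inv_ne_zero hf0) hab
  have h4 := hli.fintype_card_le_finrank
  have h5 := card_Ix (n + 1)
  rw [hn]
  have h6 : ((n + 1 : ℕ) * (n + 1 + 1 : ℕ) : ℤ) ≤ 2 * (Module.finrank ℂ (T.H D) : ℤ) := by
    have : (n + 1) * (n + 1 + 1) ≤ 2 * Module.finrank ℂ (T.H D) := by
      rw [← h5]
      exact Nat.mul_le_mul_left 2 h4
    exact_mod_cast this
  push_cast at h6
  linarith

/-- Sections of a divisor, multiplied by the local equation, are in the local ring. -/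
theorem mul_mem_of_H (h9 : ST_A9) {k : ℕ} (T : PStr L k) (P : Coord L) (hP : P.loc ∈ T.X)
    {D : DVal L → ℤ} {t h : L} (ht : IsLoc D P.loc t) (hh : h ∈ T.H D) : h * t ∈ P.loc := by
  by_cases h0 : h = 0
  · rw [h0, zero_mul]; exact Subalgebra.zero_mem _
  rw [h9]
  intro v hv
  have hv' : nrm v ∈ Thr P.loc := ⟨nrm_zero v, through_congr (nrm_same v) hv⟩
  right
  rw [v.map_mul _ _ h0 ht.1]
  have h2 := (hh _ ⟨hv'.1, ⟨_, hP, hv'.2⟩⟩).resolve_left h0
  have h3 := ht.2 _ hv'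
  rw [← nrm_same v h h0] at h2
  rw [← nrm_same v t ht.1] at h3
  rw [h3]; exact h2

theorem ord_nonneg (P : Coord L) (w : DVal L)
    (hw : ∀ f : ℂ[X][X], f ≠ 0 → w.v (ev P.x P.y f) = ordn f) {z : L} (hz : z ∈ P.loc)
    (h0 : z ≠ 0) : 0 ≤ w.v z := by
  obtain ⟨f, g, hg, rfl⟩ := hz
  have hg0 : g ≠ 0 := by
    rintro rfl
    exact hg (H62.cf_zero _)
  have hf0 : f ≠ 0 := by
    rintro rfl
    apply h0
    rw [map_zero, zero_div]
  have h8 : ordn g = 0 := ordn_eq ⟨H62.og_zero _, (0, 0), hg, rfl⟩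
  rw [w.map_div (P.ne hf0) (P.ne hg0), hw _ hf0, hw _ hg0, h8]
  omega

/-- **C1.** -/
theorem st_C1 (h9 : ST_A9) (h17 : ST_A17) (hD0 : ST_D0) (hD7 : ST_D7) (hB3 : ST_B3) : ST_C1 := by
  classical
  intro L _ _ k
  induction k with
  | zero => exact fun T D hD => base h17 hB3 T D hD
  | succ k ih =>
    intro T D hD
    obtain ⟨hD', w, hwC, hw, hC, hwn, hkey⟩ := hD7 L k T D hD
    set T' := T.trunc k (Nat.le_succ k) with hT'
    obtain ⟨t, ht⟩ := (hD0 L (k + 1) T D hD k _ (T.valid (Fin.last k)) (Nat.le_succ k)).1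
    obtain ⟨e1, e2, e3, e4⟩ := hkey t ht
    obtain ⟨hfin, hineq⟩ := ih T' D hD'
    obtain ⟨P, hP, hwP⟩ := hw
    have hPX : P.loc ∈ T'.X := by rw [hP]; exact last_mem T
    have hle : T.H D ≤ T'.H D := fun h hh => ((e4 h).1 hh).1
    refine ⟨Submodule.finiteDimensional_of_le hle, ?_⟩
    intro h2
    rw [e1] at h2
    have h3 := hineq h2
    set μ := (T.clD D).2 (Fin.last k) with hμ
    have hchi : chi2 (T.clD D) = chi2 (T'.clD D) - μ * (μ + 1) := by
      unfold chi2
      rw [Fin.sum_univ_castSucc, e1, ← hμ]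
      simp only [e2]
      ring
    rw [hchi]
    rw [← hP] at e4 ht
    by_cases hμ0 : μ ≤ 0
    · have h5 : T.H D = T'.H D := by
        apply le_antisymm hle
        intro h hh
        have h6 := mul_mem_of_H h9 T' P hPX ht hh
        rw [e4]
        refine ⟨hh, h6, ?_⟩
        by_cases h0 : h = 0
        · exact Or.inl h0
        · right
          exact hμ0.trans (ord_nonneg P w hwP h6 (mul_ne_zero h0 ht.1))
      rw [h5]
      have h6 : 0 ≤ μ * (μ + 1) := by
        rcases hμ0.lt_or_eq with h7 | h7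
        · have h8 : μ + 1 ≤ 0 := by omega
          exact mul_nonneg_of_nonpos_of_nonpos hμ0 h8
        · rw [h7]; norm_num
      linarith
    · obtain ⟨n, hn⟩ : ∃ n : ℕ, μ = n := ⟨μ.toNat, by omega⟩
      have h5 := count P w hwP t n (T.H D) (T'.H D)
        (fun h hh => mul_mem_of_H h9 T' P hPX ht hh) (fun h => by rw [e4, hn]) ht.1
      have h6 : 2 * (Module.finrank ℂ (T'.H D) : ℤ) ≤ 2 * (Module.finrank ℂ (T.H D) : ℤ)
          + n * (n + 1) := by exact_mod_cast h5
      rw [hn]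
      linarith

end

end LCY.H97
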