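import Pool.Agent.Helper97.LCY.C1
import Pool.Agent.Helper82.LCY.Nef

/-!
Row C5: effectivity of classes with many sections.
-/

set_option autoImplicit false

open Polynomial Pool.Agent.Helper82.LCY

namespace LCY.H97

noncomputable section

/-- **C5.** -/
theorem st_C5 (hB1 : ST_B1) (hB4 : ST_B4) (hC1 : ST_C1) : ST_C5 := by
  intro L _ _ k T c hc hchi
  obtain ⟨D, hD, hcl⟩ := hB4 L k T c
  obtain ⟨hfin, h1⟩ := hC1 L k T D hD
  rw [hcl] at h1
  have h2 := h1 (by omega)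
  have h3 : 0 < Module.finrank ℂ (T.H D) := by
    by_contra hn
    have : Module.finrank ℂ (T.H D) = 0 := by omega
    rw [this] at h2
    push_cast at h2
    omega
  have hnt : Nontrivial (T.H D) := Module.finrank_pos_iff.1 h3
  obtain ⟨⟨h, hh⟩, hne⟩ := exists_ne (0 : T.H D)
  have h0 : h ≠ 0 := fun h4 => hne (Subtype.ext h4)
  obtain ⟨h5, h6⟩ := hB1 L k T h h0
  refine ⟨fun v => v.v h + D v, isDiv_add h5 hD, fun v hv => (hh v hv).resolve_left h0, ?_⟩
  rw [clD_add h5 hD, h6, zero_add, hcl]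

/-- The form used by the lattice theory. -/
theorem eff_of_C5 (hC5 : ST_C5) {L : Type} [Field L] [Algebra ℂ L] {k : ℕ} (T : PStr L k)
    (G : Cl ℤ (Fin k)) (h0 : 0 ≤ G.1) (hG : 0 < ip G G - ip KK G + 2) :
    Eff (fun v : {v : DVal L // T.Cur v} => T.cl v.1) G := by
  classical
  have hchi : chi2 G = ip G G - ip KK G + 2 := by
    unfold chi2 ip KK
    simp only [mul_add, Finset.sum_add_distrib, mul_one]
    have : ∑ i, (-1 : ℤ) * G.2 i = - ∑ i, G.2 i := by
      rw [← Finset.mul_sum]; ring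
    rw [this]; ring
  obtain ⟨n, hn, hn0, hcl⟩ := hC5 L k T G h0 (by rw [hchi]; exact hG)
  have hn' : {v | v ∈ T.C ∧ n v ≠ 0}.Finite := hn
  set s := hn'.toFinset with hs
  have hmem : ∀ v, v ∈ s ↔ v ∈ T.C ∧ n v ≠ 0 := by
    intro v; rw [hs, Set.Finite.mem_toFinset]; rfl
  refine ⟨s.attach.map ⟨fun v => ⟨v.1, ((hmem v.1).1 v.2).1.2⟩, fun a b hab => by
    apply Subtype.ext
    exact congrArg (fun x : {v : DVal L // T.Cur v} => x.1) hab⟩, fun v => n v.1, ?_, ?_⟩
  · intro v hv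
    rw [Finset.mem_map] at hv
    obtain ⟨a, -, rfl⟩ := hv
    exact hn0 _ ((hmem a.1).1 a.2).1
  · rw [Finset.sum_map, ← hcl]
    unfold PStr.clD
    rw [finsum_mem_eq_sum_of_inter_support_eq (s := T.C) (t := s) (f := fun v => n v • T.cl v)]
    · rw [← Finset.sum_attach]
      rfl
    · ext v
      constructor
      · rintro ⟨h1, h2⟩
        refine ⟨(hmem v).2 ⟨h1, fun h3 => h2 ?_⟩, h2⟩
        simp only
        rw [h3, zero_smul]
      · rintro ⟨h1, h2⟩
        exact ⟨((hmem v).1 h1).1, h2⟩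

end

end LCY.H97
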