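import Pool.Agent.Helper97.LCY.SBase

/-!
Row D0: local equations of divisors.
-/

set_option autoImplicit false

open Polynomial Pool.Agent.Helper82.LCY

namespace LCY.H97

noncomputable section

variable {L : Type} [Field L] [Algebra ℂ L]

theorem thr_subset (h17 : ST_A17) {k : ℕ} (T : PStr L k) {j : ℕ} (hj : j ≤ k)
    {R : Subalgebra ℂ L} (hR : R ∈ surf T.S T.R j) : Thr R ⊆ T.C :=
  fun _ hv => ⟨hv.1, cur_of_through h17 T hj hR hv.2⟩

theorem map_prod (v : DVal L) {ι : Type*} (s : Finset ι) (f : ι → L) (hf : ∀ i ∈ s, f i ≠ 0) :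
    v.v (∏ i ∈ s, f i) = ∑ i ∈ s, v.v (f i) := by
  classical
  induction s using Finset.induction_on with
  | empty => simp [v.map_one]
  | insert a s ha ih =>
    rw [Finset.prod_insert ha, Finset.sum_insert ha,
      v.map_mul _ _ (hf a (Finset.mem_insert_self _ _))
        (Finset.prod_ne_zero_iff.2 fun i hi => hf i (Finset.mem_insert_of_mem hi)),
      ih fun i hi => hf i (Finset.mem_insert_of_mem hi)]

/-- **D0.** -/
theorem st_D0 (h6 : ST_A6) (h9 : ST_A9) (h10 : ST_A10) (h16 : ST_A16) (h17 : ST_A17) :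
    ST_D0 := by
  classical
  intro L _ _ k T D hD j R hR hj
  obtain ⟨P, rfl⟩ := h16 L k T j R hR
  have hsub : Thr P.loc ⊆ T.C := thr_subset h17 T hj hR
  -- existence
  refine ⟨?_, ?_⟩
  · have hfin : {v | v ∈ Thr P.loc ∧ D v ≠ 0}.Finite :=
      hD.subset fun v hv => ⟨hsub hv.1, hv.2⟩
    have hg : ∀ v, v ∈ Thr P.loc → ∃ g, IsAdic P g v ∧ cf g (0, 0) = 0 :=
      fun v hv => (h6 L P v).1 hv.2
    choose! g hg1 hg2 using hg
    set s := hfin.toFinset with hs
    have hmem : ∀ v, v ∈ s ↔ v ∈ Thr P.loc ∧ D v ≠ 0 := by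
      intro v; rw [hs, Set.Finite.mem_toFinset]; rfl
    have hgne : ∀ v ∈ s, ev P.x P.y (g v) ≠ 0 := by
      intro v hv
      exact P.ne (hg1 v ((hmem v).1 hv).1).1.ne_zero
    refine ⟨∏ v ∈ s, ev P.x P.y (g v) ^ D v, ?_, ?_⟩
    · exact Finset.prod_ne_zero_iff.2 fun v hv => zpow_ne_zero _ (hgne v hv)
    · intro v hv
      rw [map_prod v s _ fun u hu => zpow_ne_zero _ (hgne u hu)]
      have hval : ∀ u ∈ s, v.v (ev P.x P.y (g u) ^ D u) = if u = v then D v else 0 := by
        intro u hu
        rw [v.map_zpow (hgne u hu)]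
        have hu' := ((hmem u).1 hu).1
        by_cases huv : u = v
        · subst huv
          rw [if_pos rfl]
          have h1 := (hg1 u hu').2 1 1 (fun h => (hg1 u hu').1.not_isUnit (isUnit_of_dvd_one h))
          rw [pow_one, mul_one] at h1
          rw [h1]; simp
        · rw [if_neg huv]
          have hnd : ¬ g v ∣ g u := by
            intro hd
            have hass : Associated (g v) (g u) :=
              ((hg1 v hv).1.associated_of_dvd (hg1 u hu').1 hd)
            apply huv
            apply eq_of_same hu'.1 hv.1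
            have h2 := isAdic_same (hg1 u hu')
            have h3 := isAdic_same (hg1 v hv)
            refine same_trans h2 (same_trans ?_ (same_symm h3))
            intro z hz
            obtain ⟨⟨a, b⟩, ha, hb, h4⟩ := H62.rep P hz
            dsimp only at ha hb h4
            change H62.pv P (g u) z = H62.pv P (g v) z
            rw [H62.pv_eq P (hg1 u hu').1.prime ha hb h4, H62.pv_eq P (hg1 v hv).1.prime ha hb h4,
              multiplicity_eq_of_associated_left hass.symm,
              multiplicity_eq_of_associated_left hass.symm]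
          have h1 := (hg1 v hv).2 0 (g u) hnd
          rw [pow_zero, one_mul] at h1
          rw [h1]; simp
      rw [Finset.sum_congr rfl hval, Finset.sum_ite_eq']
      by_cases hvs : v ∈ s
      · rw [if_pos hvs]
      · rw [if_neg hvs]
        by_contra hne
        exact hvs ((hmem v).2 ⟨hv, fun h0 => hne h0.symm⟩)
  · intro t t' ht ht'
    have hle : ∀ a b : L, IsLoc D P.loc a → IsLoc D P.loc b → a / b ∈ P.loc := by
      intro a b ha hb
      rw [h9]
      intro v hv
      have hv' : nrm v ∈ Thr P.loc := ⟨nrm_zero v, through_congr (nrm_same v) hv⟩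
      right
      rw [v.map_div ha.1 hb.1]
      have h1 := ha.2 _ hv'
      have h2 := hb.2 _ hv'
      rw [← nrm_same v a ha.1] at h1
      rw [← nrm_same v b hb.1] at h2
      rw [h1, h2]; simp
    refine ⟨hle t t' ht ht', fun w hw => ?_⟩
    have hsum : ∀ a : L, IsLoc D P.loc a → w.v a = ∑ᶠ v ∈ Thr P.loc, D v * mul P.loc v := by
      intro a ha
      rw [(h10 L P a ha.1).2 w hw]
      refine finsum_congr fun v => finsum_congr fun hv => ?_
      rw [ha.2 v hv]
    exact ⟨by rw [hsum t ht, hsum t' ht'], hsum t ht⟩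

end

end LCY.H97
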