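import Pool.Agent.Helper11.LCY.Stmts

/-!
Surfaces: normalised valuations, invariance of the predicates, existence of order valuations and
of the line at infinity, additivity of the class of a divisor.
-/

set_option autoImplicit false

open Polynomial Pool.Agent.Helper82.LCY

namespace LCY.H97

noncomputable section

variable {L : Type} [Field L] [Algebra ℂ L]

theorem dval_ext {v w : DVal L} (h : v.v = w.v) : v = w := by
  cases v; cases w; simp only at h; subst h; rfl

/-- Normalised valuations with the same values are equal. -/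
theorem eq_of_same {v w : DVal L} (hv : v.v 0 = 0) (hw : w.v 0 = 0) (h : v.Same w) : v = w := by
  apply dval_ext
  funext a
  by_cases ha : a = 0
  · rw [ha, hv, hw]
  · exact h a ha

theorem same_symm {v w : DVal L} (h : v.Same w) : w.Same v := fun a ha => (h a ha).symm

theorem same_trans {v w u : DVal L} (h : v.Same w) (h' : w.Same u) : v.Same u :=
  fun a ha => (h a ha).trans (h' a ha)

open Classical in
/-- The normalisation of a valuation: value `0` at `0`. -/
def nrm (v : DVal L) : DVal L where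
  v := fun z => if z = 0 then 0 else v.v z
  map_mul := by
    intro a b ha hb
    rw [if_neg (mul_ne_zero ha hb), if_neg ha, if_neg hb, v.map_mul a b ha hb]
  map_add := by
    intro a b ha hb hab
    rw [if_neg hab, if_neg ha, if_neg hb]
    exact v.map_add a b ha hb hab
  map_const := by
    intro c hc
    rw [if_neg ((_root_.map_ne_zero _).2 hc)]
    exact v.map_const c hc
  exists_unif := by
    obtain ⟨π, h1, h2⟩ := v.exists_unif
    exact ⟨π, h1, by rw [if_neg h1]; exact h2⟩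
  exists_res := by
    obtain ⟨t, ht⟩ := v.exists_res
    refine ⟨t, fun P hP => ⟨(ht P hP).1, ?_⟩⟩
    dsimp only
    rw [if_neg (ht P hP).1]
    exact (ht P hP).2

theorem nrm_same (v : DVal L) : v.Same (nrm v) := by
  intro a ha
  simp only [nrm]
  rw [if_neg ha]

theorem nrm_zero (v : DVal L) : (nrm v).v 0 = 0 := by
  simp [nrm]

theorem int_congr {v w : DVal L} (h : v.Same w) {z : L} (hz : v.Int z) : w.Int z := by
  by_cases h0 : z = 0
  · exact Or.inl h0
  · rcases hz with h1 | h1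
    · exact absurd h1 h0
    · exact Or.inr (by rw [← h z h0]; exact h1)

theorem through_congr {v w : DVal L} (h : v.Same w) {R : Subalgebra ℂ L} (hv : Through R v) :
    Through R w := by
  obtain ⟨h1, z, h2, h3, h4, h5⟩ := hv
  exact ⟨fun z hz => int_congr h (h1 z hz), z, h2, h3, h4, by rw [← h z h4]; exact h5⟩

theorem isOrd_congr {v w : DVal L} (h : v.Same w) {R : Subalgebra ℂ L} (hv : IsOrd R v) :
    IsOrd R w := by
  obtain ⟨P, hP, h1⟩ := hv
  exact ⟨P, hP, fun f hf => by rw [← h _ (P.ne hf)]; exact h1 f hf⟩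

theorem isInf_congr {v w : DVal L} (h : v.Same w) {S : Coord L} (hv : IsInf S v) :
    IsInf S w := fun f hf => by rw [← h _ (S.ne hf)]; exact hv f hf

theorem isAdic_congr {v w : DVal L} (h : v.Same w) {P : Coord L} {g : ℂ[X][X]}
    (hv : IsAdic P g v) : IsAdic P g w := by
  refine ⟨hv.1, fun n f hf => ?_⟩
  have h1 : g ^ n * f ≠ 0 := mul_ne_zero (pow_ne_zero _ hv.1.ne_zero)
    (fun h0 => hf (by rw [h0]; exact dvd_zero _))
  rw [← h _ (P.ne h1)]
  exact hv.2 n f hf

theorem planeCur_congr {v w : DVal L} (h : v.Same w) {S : Coord L} (hv : PlaneCur S v) :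
    PlaneCur S w := by
  rcases hv with h1 | ⟨g, h1⟩
  · exact Or.inl (isInf_congr h h1)
  · exact Or.inr ⟨g, isAdic_congr h h1⟩

theorem cur_congr {v w : DVal L} (h : v.Same w) {k : ℕ} {T : PStr L k} (hv : T.Cur v) :
    T.Cur w := by
  obtain ⟨R, hR, h1⟩ := hv
  exact ⟨R, hR, through_congr h h1⟩

theorem mul_congr {v w : DVal L} (h : v.Same w) (R : Subalgebra ℂ L) : mul R v = mul R w := by
  have h' := same_symm h
  unfold mul
  have e1 : IsOrd R v ↔ IsOrd R w := ⟨isOrd_congr h, isOrd_congr h'⟩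
  have e2 : Through R v ↔ Through R w := ⟨through_congr h, through_congr h'⟩
  have e3 : {n : ℕ | ∃ (P : Coord L) (g : ℂ[X][X]), P.loc = R ∧ IsAdic P g v ∧ ordn g = n}
      = {n : ℕ | ∃ (P : Coord L) (g : ℂ[X][X]), P.loc = R ∧ IsAdic P g w ∧ ordn g = n} := by
    ext n
    constructor
    · rintro ⟨P, g, a, b, c⟩; exact ⟨P, g, a, isAdic_congr h b, c⟩
    · rintro ⟨P, g, a, b, c⟩; exact ⟨P, g, a, isAdic_congr h' b, c⟩
  rw [e3]
  by_cases c1 : IsOrd R v
  · rw [if_pos c1, if_pos (e1.1 c1)]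
  · rw [if_neg c1, if_neg (fun c => c1 (e1.2 c))]
    by_cases c2 : Through R v
    · rw [if_pos c2, if_pos (e2.1 c2)]
    · rw [if_neg c2, if_neg (fun c => c2 (e2.2 c))]

theorem deg_congr {v w : DVal L} (h : v.Same w) (S : Coord L) : deg S v = deg S w := by
  have h' := same_symm h
  unfold deg
  have e1 : IsInf S v ↔ IsInf S w := ⟨isInf_congr h, isInf_congr h'⟩
  have e3 : {n : ℕ | ∃ g : ℂ[X][X], IsAdic S g v ∧ tdeg g = n}
      = {n : ℕ | ∃ g : ℂ[X][X], IsAdic S g w ∧ tdeg g = n} := by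
    ext n
    constructor
    · rintro ⟨g, b, c⟩; exact ⟨g, isAdic_congr h b, c⟩
    · rintro ⟨g, b, c⟩; exact ⟨g, isAdic_congr h' b, c⟩
  rw [e3]
  by_cases c1 : IsInf S v
  · rw [if_pos c1, if_pos (e1.1 c1)]
  · rw [if_neg c1, if_neg (fun c => c1 (e1.2 c))]

theorem cl_congr {v w : DVal L} (h : v.Same w) {k : ℕ} (T : PStr L k) : T.cl v = T.cl w := by
  unfold PStr.cl
  rw [deg_congr h]
  congr 1
  funext i
  rw [mul_congr h]

/-! ### Orders -/

theorem ordn_eq {m : ℕ} {f : ℂ[X][X]} (h : H62.OE m f) : ordn f = m := by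
  obtain ⟨h1, e, h2, h3⟩ := h
  unfold ordn
  apply le_antisymm
  · exact Nat.sInf_le ⟨e, h2, h3⟩
  · have hne : {n | ∃ e : ℕ × ℕ, cf f e ≠ 0 ∧ e.1 + e.2 = n}.Nonempty := ⟨m, e, h2, h3⟩
    apply le_csInf hne
    rintro n ⟨e', h4, rfl⟩
    exact h1 e' h4

theorem ordn_oe {f : ℂ[X][X]} (hf : f ≠ 0) : H62.OE (ordn f) f := by
  obtain ⟨m, hm⟩ := H62.exists_OE hf
  rw [ordn_eq hm]
  exact hm

theorem isOrd_ord (P : Coord L) : IsOrd P.loc P.ord := by
  refine ⟨P, rfl, fun f hf => ?_⟩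
  exact P.ord_ev (ordn_oe hf)

theorem isOrd_nrm (P : Coord L) : IsOrd P.loc (nrm P.ord) := isOrd_congr (nrm_same _) (isOrd_ord P)

/-! ### The line at infinity -/

theorem tdeg_le {f : ℂ[X][X]} {e : ℕ × ℕ} (he : cf f e ≠ 0) : e.1 + e.2 ≤ tdeg f :=
  Finset.le_sup (f := fun e : ℕ × ℕ => e.1 + e.2) (mem_bs.2 he)

theorem exists_tdeg {f : ℂ[X][X]} (hf : f ≠ 0) : ∃ e, cf f e ≠ 0 ∧ e.1 + e.2 = tdeg f := by
  obtain ⟨e0, he0, h⟩ := Finset.exists_mem_eq_sup (bs f) (by
      obtain ⟨e, he⟩ := exists_cf_ne hf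
      exact ⟨e, mem_bs.2 he⟩) (fun e : ℕ × ℕ => e.1 + e.2)
  exact ⟨e0, mem_bs.1 he0, h.symm⟩

theorem inf_v_x (P : Coord L) : P.inf.v P.x = -1 := by
  have h1 : P.inf.v P.cinf.x = 1 := by
    have h2 : ev P.cinf.x P.cinf.y (C X) = P.cinf.x := ev_CX _ _
    have h3 := P.cinf.pval_ev H62.prime_CX (f := C X) H62.CX_ne
    rw [h2] at h3
    unfold Coord.inf
    rw [h3]
    have : multiplicity (C X : ℂ[X][X]) (C X) = 1 :=
      multiplicity_self
    rw [this]; rfl
  rw [P.cinf_x, DVal.map_inv _ P.x_ne] at h1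
  omega

/-- The valuation of the line at infinity is minus the total degree. -/
theorem isInf_inf (P : Coord L) : IsInf P P.inf := by
  intro f hf
  obtain ⟨e0, he0, hM⟩ := exists_tdeg hf
  have hmax' : ∀ e, cf f e ≠ 0 → e.1 + e.2 ≤ tdeg f := fun e he => tdeg_le he
  set M := tdeg f with hMdef
  obtain ⟨g, h1, h2, h3⟩ := toricZ f (-1) 0 (-1) 1 M 0 (Or.inr (by norm_num)) (by
    intro e he
    have := hmax' e he
    constructor <;> omega)
  have hx : P.x = P.cinf.x ^ (-1 : ℤ) * P.cinf.y ^ (0 : ℤ) := by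
    rw [P.cinf_x]; simp
  have hy : P.y = P.cinf.x ^ (-1 : ℤ) * P.cinf.y ^ (1 : ℤ) := by
    have := P.x_ne
    rw [P.cinf_x, P.cinf_y]; simp
    field_simp
  have h4 := h3 L P.cinf.x P.cinf.y P.cinf.x_ne P.cinf.y_ne
  rw [← hx, ← hy, zpow_zero, mul_one, zpow_natCast] at h4
  have hnd : ¬ (C X : ℂ[X][X]) ∣ g := by
    intro hd
    rw [C_dvd_iff_dvd_coeff] at hd
    obtain ⟨e', g1, g2, g3⟩ := h1 e0 he0
    have g4 : e' = (0, e0.2) := Prod.ext (by dsimp only; omega) (by dsimp only; omega)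
    have g5 := X_dvd_iff.1 (hd e0.2)
    rw [g4] at g3
    exact he0 (by rw [← g3]; exact g5)
  have hgne : g ≠ 0 := by
    rintro rfl
    exact hnd (dvd_zero _)
  have h5 : P.inf.v (ev P.cinf.x P.cinf.y g) = 0 := by
    unfold Coord.inf
    rw [Coord.pval_ev _ _ hgne, multiplicity_eq_zero.2 hnd]
    rfl
  have h6 : P.inf.v P.cinf.x = 1 := by
    rw [P.cinf_x, DVal.map_inv _ P.x_ne, inf_v_x]; ring
  rw [h4, DVal.map_mul _ _ _ (pow_ne_zero _ P.cinf.x_ne) (P.ne hf),
    DVal.map_pow _ P.cinf.x_ne, h6] at h5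
  omega

theorem isInf_nrm (P : Coord L) : IsInf P (nrm P.inf) := isInf_congr (nrm_same _) (isInf_inf P)

/-- Two valuations of the line at infinity are the same. -/
theorem isInf_unique {P : Coord L} {v w : DVal L} (hv : IsInf P v) (hw : IsInf P w) :
    v.Same w := by
  intro z hz
  obtain ⟨⟨f, g⟩, hf, hg, h⟩ := H62.rep P hz
  dsimp only at hf hg h
  rw [h, DVal.map_div _ (P.ne hf) (P.ne hg), DVal.map_div _ (P.ne hf) (P.ne hg), hv f hf, hv g hg,
    hw f hf, hw g hg]

/-- The valuation of a prime polynomial. -/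
theorem isAdic_pval (P : Coord L) {p : ℂ[X][X]} (hp : Prime p) : IsAdic P p (P.pval p hp) := by
  refine ⟨hp.irreducible, fun n f hf => ?_⟩
  have hf0 : f ≠ 0 := fun h0 => hf (by rw [h0]; exact dvd_zero _)
  rw [P.pval_ev hp (mul_ne_zero (pow_ne_zero _ hp.ne_zero) hf0),
    H62.mult_mul hp (pow_ne_zero _ hp.ne_zero) hf0, H62.mult_zero hf, add_zero,
    multiplicity_pow_self_of_prime hp]

theorem isAdic_prime {P : Coord L} {g : ℂ[X][X]} {v : DVal L} (h : IsAdic P g v) : Prime g :=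
  h.1.prime

/-- A `g`-adic valuation is the valuation of `g`. -/
theorem isAdic_same {P : Coord L} {g : ℂ[X][X]} {v : DVal L} (h : IsAdic P g v) :
    v.Same (P.pval g h.1.prime) := by
  have key : ∀ f : ℂ[X][X], f ≠ 0 → v.v (ev P.x P.y f) = (P.pval g h.1.prime).v (ev P.x P.y f) := by
    intro f hf
    obtain ⟨n, f', hf', rfl⟩ : ∃ (n : ℕ) (f' : ℂ[X][X]), ¬ g ∣ f' ∧ f = g ^ n * f' := by
      obtain ⟨f', h1, h2⟩ := (H62.fin_mult h.1.prime hf).exists_eq_pow_mul_and_not_dvd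
      exact ⟨_, f', h2, h1⟩
    rw [h.2 n f' hf', (isAdic_pval P h.1.prime).2 n f' hf']
  intro z hz
  obtain ⟨⟨f, g'⟩, hf, hg, h1⟩ := H62.rep P hz
  dsimp only at hf hg h1
  rw [h1, DVal.map_div _ (P.ne hf) (P.ne hg), DVal.map_div _ (P.ne hf) (P.ne hg), key f hf,
    key g' hg]

theorem pval_zero (P : Coord L) {p : ℂ[X][X]} (hp : Prime p) : (P.pval p hp).v 0 = 0 := by
  change H62.pv P p 0 = 0
  unfold H62.pv
  simp

/-! ### Truncation -/

theorem surf_trunc {k : ℕ} (T : PStr L k) (j : ℕ) (h : j ≤ k) :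
    (T.trunc j h).X = surf T.S T.R j := by
  unfold PStr.X
  exact surf_congr T.S (fun i => T.R (Fin.castLE h i)) T.R j le_rfl h (fun i h1 h2 _ => rfl)

theorem cl_trunc {k : ℕ} (T : PStr L k) (j : ℕ) (h : j ≤ k) (v : DVal L) :
    (T.trunc j h).cl v = ((T.cl v).1, fun i => (T.cl v).2 (Fin.castLE h i)) := rfl

/-- Curves of a truncation are curves. -/
theorem cur_trunc (h17 : ST_A17) {k : ℕ} (T : PStr L k) (j : ℕ) (h : j ≤ k) {v : DVal L}
    (hv : (T.trunc j h).Cur v) : T.Cur v := by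
  rw [h17] at hv ⊢
  rcases hv with h1 | ⟨i, h1⟩
  · exact Or.inl h1
  · exact Or.inr ⟨Fin.castLE h i, h1⟩

/-- A curve through a point of an intermediate surface is a curve of the surface. -/
theorem cur_of_through (h17 : ST_A17) {k : ℕ} (T : PStr L k) {j : ℕ} (hj : j ≤ k)
    {R : Subalgebra ℂ L} (hR : R ∈ surf T.S T.R j) {v : DVal L} (hv : Through R v) : T.Cur v := by
  apply cur_trunc h17 T j hj
  exact ⟨R, by rw [surf_trunc]; exact hR, hv⟩

/-! ### Divisors -/

theorem isDiv_add {k : ℕ} {T : PStr L k} {D D' : DVal L → ℤ} (h : T.IsDiv D) (h' : T.IsDiv D') :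
    T.IsDiv (fun v => D v + D' v) := by
  refine (h.union h').subset ?_
  rintro v ⟨hv, hne⟩
  by_cases h0 : D v = 0
  · right; exact ⟨hv, fun h1 => hne (by dsimp only; rw [h0, h1, add_zero])⟩
  · left; exact ⟨hv, h0⟩

theorem isDiv_smul {k : ℕ} {T : PStr L k} {D : DVal L → ℤ} (n : ℤ) (h : T.IsDiv D) :
    T.IsDiv (fun v => n * D v) := by
  refine h.subset ?_
  rintro v ⟨hv, hne⟩
  exact ⟨hv, fun h1 => hne (by dsimp only; rw [h1, mul_zero])⟩

theorem isDiv_neg {k : ℕ} {T : PStr L k} {D : DVal L → ℤ} (h : T.IsDiv D) :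
    T.IsDiv (fun v => - D v) := by
  refine h.subset ?_
  rintro v ⟨hv, hne⟩
  exact ⟨hv, fun h1 => hne (by dsimp only; rw [h1, neg_zero])⟩

theorem supp_fin {k : ℕ} {T : PStr L k} {D : DVal L → ℤ} (h : T.IsDiv D) {M : Type*}
    [AddCommGroup M] (c : DVal L → M) :
    (T.C ∩ Function.support fun v => D v • c v).Finite := by
  refine h.subset ?_
  rintro v ⟨hv, hne⟩
  refine ⟨hv, fun h1 => hne ?_⟩
  simp only
  rw [h1, zero_smul]

theorem clD_add {k : ℕ} {T : PStr L k} {D D' : DVal L → ℤ} (h : T.IsDiv D) (h' : T.IsDiv D') :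
    T.clD (fun v => D v + D' v) = T.clD D + T.clD D' := by
  unfold PStr.clD
  rw [← finsum_mem_add_distrib' (supp_fin h _) (supp_fin h' _)]
  refine finsum_congr fun v => finsum_congr fun _ => ?_
  rw [add_smul]

theorem clD_smul {k : ℕ} {T : PStr L k} {D : DVal L → ℤ} (n : ℤ) (h : T.IsDiv D) :
    T.clD (fun v => n * D v) = n • T.clD D := by
  unfold PStr.clD
  have h1 := (AddMonoidHom.map_finsum_mem' (DistribSMul.toAddMonoidHom (Cl ℤ (Fin k)) n)
    (s := T.C) (f := fun v => D v • T.cl v) (supp_fin h _))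
  rw [DistribSMul.toAddMonoidHom_apply] at h1
  rw [h1]
  refine finsum_congr fun v => finsum_congr fun _ => ?_
  rw [DistribSMul.toAddMonoidHom_apply, mul_smul]

theorem clD_congr {k : ℕ} {T : PStr L k} {D D' : DVal L → ℤ} (h : ∀ v ∈ T.C, D v = D' v) :
    T.clD D = T.clD D' := by
  unfold PStr.clD
  refine finsum_congr fun v => finsum_congr fun hv => ?_
  rw [h v hv]

end

end LCY.H97
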