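import Pool.Agent.Helper84.LCY.Nc
import Pool.Agent.Helper82.LCY.Qax

/-!
Row NB of the block SURF (MP_f7e214): normal form of two proper points and a point infinitely
near to the first.
-/

open Polynomial

namespace LCY

namespace H97

noncomputable section

variable {L : Type} [Field L] [Algebra ℂ L]

open H82

/-- The valuation of the second axis `y = 0`. -/
theorem exists_axis (S : Coord L) : ∃ v : DVal L, v.v S.y = 1 ∧ ResTr v.v S.x := by
  obtain ⟨T, h1, h2⟩ := S.swap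
  refine ⟨T.pval (C X) H62.prime_CX, ?_, ?_⟩
  · have h3 := T.pval_ev H62.prime_CX (f := C X) H62.CX_ne
    rw [ev_CX, h1] at h3
    rw [h3, multiplicity_self]
    rfl
  · have := H62.resTr_axis T
    rwa [h2] at this

theorem resTr_sub_const {v : DVal L} {t : L} (h : ResTr v.v t) (a : ℂ) :
    ResTr v.v (t - algebraMap ℂ L a) := by
  rw [resTr_iff] at h ⊢
  intro c
  have := h (a + c)
  rwa [map_add, ← sub_sub] at this

theorem mul_ptAt {u w : L} {R : Subalgebra ℂ L} (h : PtAt u w R) {v : DVal L} (hw : v.v w = 1)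
    (hu : ResTr v.v u) : mul R v = 1 := by
  obtain ⟨Q, rfl, rfl, rfl⟩ := h
  exact mul_ax2 hw hu

/-- Projective coordinates adapted to a point and a direction. -/
theorem nb_step {S : Coord L} {R0 R1 : Subalgebra ℂ L} (h0 : R0 ∈ plane S) (h1 : Next R0 R1) :
    ∃ S1 : Coord L, SamePlane S S1 ∧ PtAt S1.x S1.y R0 ∧ PtAt S1.x (S1.y / S1.x) R1 := by
  obtain ⟨B, hB, p0, p1⟩ := H84.step1 h0 h1
  have hA : (Matrix.of ![B 2, B 1, B 0] : Matrix (Fin 3) (Fin 3) ℂ).det ≠ 0 := by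
    rw [Matrix.det_fin_three] at hB ⊢
    simp only [Matrix.of_apply, Matrix.cons_val_zero, Matrix.cons_val_one, Matrix.cons_val]
    intro h
    apply hB
    linear_combination -h
  obtain ⟨S1, hS1⟩ := H27.exists_PR S hA
  have n0 := H98.lin_ne S (H98.row_ne hB 0)
  have n1 := H98.lin_ne S (H98.row_ne hB 1)
  have n2 := H98.lin_ne S (H98.row_ne hB 2)
  have e1 : S1.x = lin S (B 1) / lin S (B 2) := hS1.1
  have e2 : S1.y = lin S (B 0) / lin S (B 2) := hS1.2
  refine ⟨S1, H84.samePlane_PR hS1 hA, ?_, ?_⟩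
  · rw [e1, e2]; exact p0
  · have e3 : S1.y / S1.x = lin S (B 0) / lin S (B 1) := by
      rw [e1, e2, div_div_div_cancel_right₀ n2]
    rw [e3, e1]; exact p1

/-- Moving the third point to infinity. -/
theorem nb_move {S : Coord L} {R0 R1 : Subalgebra ℂ L} (p0 : PtAt S.x S.y R0)
    (p1 : PtAt S.x (S.y / S.x) R1) (α β : ℂ) : ∃ S0 : Coord L, SamePlane S S0 ∧
      PtAt S0.x S0.y R0 ∧ PtAt S0.x (S0.y / S0.x) R1 ∧
      S0.y⁻¹ = S.y⁻¹ - algebraMap ℂ L α ∧ S0.x / S0.y = S.x / S.y - algebraMap ℂ L β := by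
  have hdet : (!![1, 0, -α; 0, 1, -β; 0, 0, 1] : Matrix (Fin 3) (Fin 3) ℂ).det ≠ 0 := by
    rw [Matrix.det_fin_three]; simp
  obtain ⟨S0, hS0⟩ := H27.exists_PR S hdet
  have hx := S.x_ne
  have hy := S.y_ne
  have hx0 := S0.x_ne
  have hy0 := S0.y_ne
  have n0 : 1 - algebraMap ℂ L α * S.y ≠ 0 := by
    have := H98.lin_ne S (H98.row_ne hdet 0)
    rw [lin_def] at this
    simpa [← sub_eq_add_neg] using this
  have n1 : S.x - algebraMap ℂ L β * S.y ≠ 0 := by
    have := H98.lin_ne S (H98.row_ne hdet 1)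
    rw [lin_def] at this
    simpa [← sub_eq_add_neg] using this
  have e1 : S0.x = (S.x - algebraMap ℂ L β * S.y) / (1 - algebraMap ℂ L α * S.y) := by
    rw [hS0.1, lin_def, lin_def]
    simp [← sub_eq_add_neg]
  have e2 : S0.y = S.y / (1 - algebraMap ℂ L α * S.y) := by
    rw [hS0.2, lin_def, lin_def]
    simp [← sub_eq_add_neg]
  have e3 : S0.y⁻¹ = S.y⁻¹ - algebraMap ℂ L α := by
    rw [e2]; field_simp
  have e4 : S0.x / S0.y = S.x / S.y - algebraMap ℂ L β := by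
    rw [e1, e2, div_div_div_cancel_right₀ n0, sub_div, mul_div_cancel_right₀ _ hy]
  have m0 : 1 + algebraMap ℂ L α * S0.y ≠ 0 := by
    have : 1 + algebraMap ℂ L α * S0.y = 1 / (1 - algebraMap ℂ L α * S.y) := by
      rw [e2]; field_simp; ring
    rw [this]; exact one_div_ne_zero n0
  have f2 : S.y = S0.y / (1 + algebraMap ℂ L α * S0.y) := by
    have h : S.y⁻¹ = S0.y⁻¹ + algebraMap ℂ L α := by rw [e3]; ring
    rw [← inv_inv S.y, h]
    field_simp
  have f1 : S.x = (S0.x + algebraMap ℂ L β * S0.y) / (1 + algebraMap ℂ L α * S0.y) := by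
    have h : S.x = S.y * (S0.x / S0.y + algebraMap ℂ L β) := by rw [e4]; field_simp; ring
    rw [h, f2]
    field_simp
  have m1 : S0.x + algebraMap ℂ L β * S0.y ≠ 0 := by
    intro h
    rw [h, zero_div] at f1
    exact hx f1
  have e5 : S0.y / S0.x = (S.y / S.x) / (1 - algebraMap ℂ L β * (S.y / S.x)) := by
    have : 1 - algebraMap ℂ L β * (S.y / S.x) = (S.x - algebraMap ℂ L β * S.y) / S.x := by
      rw [sub_div, div_self hx, mul_div_assoc]
    rw [this, e1, e2, div_div_div_cancel_right₀ n0, div_div_div_cancel_right₀ hx]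
  have f5 : S.y / S.x = (S0.y / S0.x) / (1 + algebraMap ℂ L β * (S0.y / S0.x)) := by
    have : 1 + algebraMap ℂ L β * (S0.y / S0.x) = (S0.x + algebraMap ℂ L β * S0.y) / S0.x := by
      rw [add_div, div_self hx0, mul_div_assoc]
    rw [this, f1, f2, div_div_div_cancel_right₀ m0, div_div_div_cancel_right₀ hx0]
  refine ⟨S0, H84.samePlane_PR hS0 hdet, ?_, ?_, e3, e4⟩
  · obtain ⟨Q, q1, q2, rfl⟩ := p0
    have a1 : Vl Q.loc S.x 0 := by rw [← q1]; exact vl_x
    have a2 : Vl Q.loc S.y 0 := by rw [← q2]; exact vl_y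
    refine PtAt.change (u := S.x) (v := S.y) (R' := S0.loc) ⟨Q, q1, q2, rfl⟩ ⟨S0, rfl, rfl, rfl⟩
      ?_ ?_ ?_ ?_
    · rw [e1]
      have := vl_div (vl_sub a1 (vl_mul (vl_const β) a2)) (vl_sub vl_one (vl_mul (vl_const α) a2))
        (by simp)
      simpa using this
    · rw [e2]
      have := vl_div a2 (vl_sub vl_one (vl_mul (vl_const α) a2)) (by simp)
      simpa using this
    · rw [f1]
      have := vl_div (vl_add (vl_x (P := S0)) (vl_mul (vl_const β) vl_y))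
        (vl_add vl_one (vl_mul (vl_const α) vl_y)) (by simp)
      simpa using this
    · rw [f2]
      have := vl_div (vl_y (P := S0)) (vl_add vl_one (vl_mul (vl_const α) vl_y)) (by simp)
      simpa using this
  · obtain ⟨T, t1, t2⟩ := S0.tor 1 0 (-1) 1 (Or.inl (by norm_num))
    have t1' : T.x = S0.x := by rw [t1]; simp
    have t2' : T.y = S0.y / S0.x := by rw [t2]; simp [div_eq_mul_inv, mul_comm]
    obtain ⟨Q, q1, q2, rfl⟩ := p1
    have a1 : Vl Q.loc S.x 0 := by rw [← q1]; exact vl_x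
    have a2 : Vl Q.loc (S.y / S.x) 0 := by rw [← q2]; exact vl_y
    have a3 : Vl Q.loc S.y 0 := by
      have := vl_mul a1 a2
      rwa [mul_div_cancel₀ _ hx, mul_zero] at this
    have b1 : Vl T.loc S0.x 0 := by rw [← t1']; exact vl_x
    have b2 : Vl T.loc (S0.y / S0.x) 0 := by rw [← t2']; exact vl_y
    have b3 : Vl T.loc S0.y 0 := by
      have := vl_mul b1 b2
      rwa [mul_div_cancel₀ _ hx0, mul_zero] at this
    refine PtAt.change (u := S.x) (v := S.y / S.x) (R' := T.loc) ⟨Q, q1, q2, rfl⟩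
      ⟨T, t1', t2', rfl⟩ ?_ ?_ ?_ ?_
    · rw [e1]
      have := vl_div (vl_sub a1 (vl_mul (vl_const β) a3)) (vl_sub vl_one (vl_mul (vl_const α) a3))
        (by simp)
      simpa using this
    · rw [e5]
      have := vl_div a2 (vl_sub vl_one (vl_mul (vl_const β) a2)) (by simp)
      simpa using this
    · rw [f1]
      have := vl_div (vl_add b1 (vl_mul (vl_const β) b3)) (vl_add vl_one (vl_mul (vl_const α) b3))
        (by simp)
      simpa using this
    · rw [f5]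
      have := vl_div b2 (vl_add vl_one (vl_mul (vl_const β) b2)) (by simp)
      simpa using this

/-- The third point in the coordinates `1/y`, `x/y`. -/
theorem nb_third {S : Coord L} {R2 : Subalgebra ℂ L}
    (h : (∃ a b : ℂ, b ≠ 0 ∧ PtAt (S.x - algebraMap ℂ L a) (S.y - algebraMap ℂ L b) R2) ∨
      (∃ b : ℂ, b ≠ 0 ∧ PtAt S.x⁻¹ (S.y / S.x - algebraMap ℂ L b) R2) ∨
      PtAt S.y⁻¹ (S.x / S.y) R2) :
    ∃ α β : ℂ, PtAt (S.y⁻¹ - algebraMap ℂ L α) (S.x / S.y - algebraMap ℂ L β) R2 := by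
  have hx := S.x_ne
  have hy := S.y_ne
  obtain ⟨T, t1, t2⟩ := S.tor 0 (-1) 1 (-1) (Or.inl (by norm_num))
  have t1' : T.x = S.y⁻¹ := by rw [t1]; simp
  have t2' : T.y = S.x / S.y := by rw [t2]; simp [div_eq_mul_inv]
  rcases h with ⟨a, b, hb, h⟩ | ⟨b, hb, h⟩ | h
  · refine ⟨b⁻¹, a / b, ?_⟩
    obtain ⟨U, u1, u2⟩ := T.trans b⁻¹ (a / b)
    rw [t1'] at u1
    rw [t2'] at u2
    obtain ⟨Q, q1, q2, rfl⟩ := h
    have a1 : Vl Q.loc S.x a := vl_of_sub (by rw [← q1]; exact vl_x)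
    have a2 : Vl Q.loc S.y b := vl_of_sub (by rw [← q2]; exact vl_y)
    have b1 : Vl U.loc S.y⁻¹ b⁻¹ := vl_of_sub (by rw [← u1]; exact vl_x)
    have b2 : Vl U.loc (S.x / S.y) (a / b) := vl_of_sub (by rw [← u2]; exact vl_y)
    have b3 : Vl U.loc S.y b := by
      have := vl_inv b1 (inv_ne_zero hb)
      rwa [inv_inv, inv_inv] at this
    have b4 : Vl U.loc S.x a := by
      have := vl_mul b2 b3
      rwa [div_mul_cancel₀ _ hy, div_mul_cancel₀ _ hb] at this
    refine PtAt.change ⟨Q, q1, q2, rfl⟩ ⟨U, u1, u2, rfl⟩ ?_ ?_ ?_ ?_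
    · exact sub_of_vl (vl_inv a2 hb)
    · exact sub_of_vl (vl_div a1 a2 hb)
    · exact sub_of_vl b4
    · exact sub_of_vl b3
  · refine ⟨0, b⁻¹, ?_⟩
    obtain ⟨U, u1, u2⟩ := T.trans 0 b⁻¹
    rw [t1'] at u1
    rw [t2'] at u2
    obtain ⟨Q, q1, q2, rfl⟩ := h
    have a1 : Vl Q.loc S.x⁻¹ 0 := by rw [← q1]; exact vl_x
    have a2 : Vl Q.loc (S.y / S.x) b := vl_of_sub (by rw [← q2]; exact vl_y)
    have b1 : Vl U.loc S.y⁻¹ 0 := vl_of_sub (by rw [← u1]; exact vl_x)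
    have b2 : Vl U.loc (S.x / S.y) b⁻¹ := vl_of_sub (by rw [← u2]; exact vl_y)
    refine PtAt.change ⟨Q, q1, q2, rfl⟩ ⟨U, u1, u2, rfl⟩ ?_ ?_ ?_ ?_
    · refine sub_of_vl ?_
      have := vl_div a1 a2 hb
      rwa [zero_div, show S.x⁻¹ / (S.y / S.x) = S.y⁻¹ by field_simp] at this
    · refine sub_of_vl ?_
      have := vl_inv a2 hb
      rwa [inv_div] at this
    · have := vl_div b1 b2 (inv_ne_zero hb)
      rwa [zero_div, show S.y⁻¹ / (S.x / S.y) = S.x⁻¹ by field_simp] at this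
    · refine sub_of_vl ?_
      have := vl_inv b2 (inv_ne_zero hb)
      rwa [inv_div, inv_inv] at this
  · refine ⟨0, 0, ?_⟩
    rw [map_zero, sub_zero, sub_zero]
    exact h

/-- **NB.** -/
theorem st_NB : ST_NB := by
  intro L _ _ S R h0 h1 h2 hne hno
  obtain ⟨S1, hS1, p0, p1⟩ := nb_step h0 h1
  have hx := S1.x_ne
  have hy := S1.y_ne
  have h2' : R 2 ∈ plane S1 := by rw [hS1.1]; exact h2
  obtain ⟨v, v1, v2⟩ := exists_axis S1
  have hdeg : deg S v = 1 := by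
    rw [← hS1.2 v]
    exact deg_ax2 v1 v2
  have m0 : mul (R 0) v = 1 := mul_ptAt p0 v1 v2
  have m1 : mul (R 1) v = 1 := by
    refine mul_ptAt p1 ?_ v2
    rw [v.map_div hy hx, v1, resTr_val v2]
    rfl
  have m2 : mul (R 2) v ≠ 1 := fun h => hno v ⟨hdeg, m0, m1, h⟩
  have key : ∃ α β : ℂ,
      PtAt (S1.y⁻¹ - algebraMap ℂ L α) (S1.x / S1.y - algebraMap ℂ L β) (R 2) := by
    apply nb_third
    rcases mem_plane h2' with ⟨a, b, h⟩ | ⟨b, h⟩ | h
    · left
      refine ⟨a, b, ?_, h⟩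
      rintro rfl
      apply m2
      refine mul_ptAt h ?_ (resTr_sub_const v2 a)
      rw [map_zero, sub_zero]
      exact v1
    · right; left
      refine ⟨b, ?_, h⟩
      rintro rfl
      apply m2
      refine mul_ptAt h ?_ (resTr_inv v2)
      rw [map_zero, sub_zero, v.map_div hy hx, v1, resTr_val v2]
      rfl
    · exact Or.inr (Or.inr h)
  obtain ⟨α, β, p2⟩ := key
  obtain ⟨S0, hS0, q0, q1, e1, e2⟩ := nb_move p0 p1 α β
  obtain ⟨S', s1, s2⟩ := S0.tor 1 0 2 (-1) (Or.inr (by norm_num))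
  refine ⟨S0, S', H84.SamePlane.trans hS1 hS0, ?_, ?_, q0, q1, ?_⟩
  · rw [s1]; simp
  · rw [s2, zpow_neg_one]
    rw [show S0.x ^ (2 : ℤ) = S0.x ^ 2 from zpow_ofNat _ 2, div_eq_mul_inv]
  · show PtAt S0.y⁻¹ (S0.x / S0.y) (R 2)
    rw [e1, e2]
    exact p2

end

end H97

end LCY
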