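import Mathlib

/-!
The local ring at infinity of the rational functions over the complex numbers.
-/

set_option autoImplicit false

open Polynomial

namespace LCY

noncomputable section

/-- The local ring at infinity as a valuation subring: rational functions of degree at most
zero. -/
def OInfV : ValuationSubring (RatFunc ℂ) where
  carrier := {f | f.intDegree ≤ 0}
  mul_mem' := by
    intro a b ha hb
    simp only [Set.mem_ofPred_eq] at *
    by_cases h1 : a = 0
    · simp [h1]
    by_cases h2 : b = 0
    · simp [h2]
    rw [RatFunc.intDegree_mul h1 h2]; omega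
  one_mem' := by simp
  add_mem' := by
    intro a b ha hb
    simp only [Set.mem_ofPred_eq] at *
    by_cases h1 : b = 0
    · simpa [h1] using ha
    by_cases h2 : a + b = 0
    · simp [h2]
    exact (RatFunc.intDegree_add_le h1 h2).trans (max_le ha hb)
  zero_mem' := by simp
  neg_mem' := by
    intro a ha
    simpa only [Set.mem_ofPred_eq, RatFunc.intDegree_neg] using ha
  mem_or_inv_mem' := by
    intro a
    simp only [Set.mem_ofPred_eq, RatFunc.intDegree_inv]
    omega

/-- The local ring at infinity: rational functions of degree at most zero. -/
def OInf : Subring (RatFunc ℂ) := OInfV.toSubring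

theorem mem_OInf {f : RatFunc ℂ} : f ∈ OInf ↔ f.intDegree ≤ 0 := Iff.rfl

instance instAlgOInf : Algebra OInf (RatFunc ℂ) := inferInstance

instance instAlgOInfE {E : Type} [Field E] [Algebra (RatFunc ℂ) E] : Algebra OInf E :=
  inferInstance

instance instTowerOInf {E : Type} [Field E] [Algebra (RatFunc ℂ) E] :
    IsScalarTower OInf (RatFunc ℂ) E := inferInstance

theorem algebraMap_OInf (x : OInf) : algebraMap OInf (RatFunc ℂ) x = x := rfl

instance : IsFractionRing OInf (RatFunc ℂ) := inferInstanceAs (IsFractionRing OInfV (RatFunc ℂ))

instance : IsIntegrallyClosed OInf := inferInstanceAs (IsIntegrallyClosed OInfV)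

/-- An integral element of the rational functions has degree at most zero. -/
theorem OInf_of_isIntegral {f : RatFunc ℂ} (h : IsIntegral OInf f) : f.intDegree ≤ 0 := by
  obtain ⟨y, hy⟩ := IsIntegrallyClosed.isIntegral_iff.1 h
  rw [← hy]
  exact y.2

end

end LCY
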