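import Mathlib

/-!
Function fields of one variable over the complex numbers: finiteness over every rational
subfield, and a rational subfield of minimal degree.
-/

set_option autoImplicit false

namespace LCY.H97

variable {E : Type} [Field E] [Algebra ℂ E]

/-- A finitely generated field of transcendence degree one is finite over the field generated by
any transcendental element. -/
theorem finite_adjoin (hfg : ∃ S : Finset E, IntermediateField.adjoin ℂ (S : Set E) = ⊤)
    (htr : Algebra.trdeg ℂ E = 1) {s : E} (hs : Transcendental ℂ s) :
    FiniteDimensional (IntermediateField.adjoin ℂ {s}) E := by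
  have hai : AlgebraicIndependent ℂ (fun _ : Unit => s) :=
    algebraicIndependent_unique_type_iff.2 hs
  have hb : IsTranscendenceBasis ℂ (fun _ : Unit => s) := by
    apply AlgebraicIndependent.isTranscendenceBasis_of_trdeg_le_of_finite hai
    rw [htr]; simp
  have halg : Algebra.IsAlgebraic (IntermediateField.adjoin ℂ {s}) E := by
    have := hb.isAlgebraic_field
    rwa [Set.range_const] at this
  obtain ⟨S, hS⟩ := hfg
  have h1 : FiniteDimensional (IntermediateField.adjoin ℂ {s})
      (IntermediateField.adjoin (IntermediateField.adjoin ℂ {s}) (S : Set E)) := by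
    have : Finite (S : Set E) := S.finite_toSet
    apply IntermediateField.finiteDimensional_adjoin
    intro x _
    exact (Algebra.IsAlgebraic.isAlgebraic x).isIntegral
  have h2 : IntermediateField.adjoin (IntermediateField.adjoin ℂ {s}) (S : Set E) = ⊤ := by
    rw [eq_top_iff]
    intro x _
    have hx : x ∈ IntermediateField.adjoin ℂ (S : Set E) := by rw [hS]; trivial
    have hle : IntermediateField.adjoin ℂ (S : Set E) ≤
        (IntermediateField.adjoin (IntermediateField.adjoin ℂ {s}) (S : Set E)).restrictScalars ℂ := by
      rw [IntermediateField.adjoin_le_iff]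
      exact IntermediateField.subset_adjoin _ _
    exact hle hx
  rw [h2] at h1
  exact (IntermediateField.topEquiv (F := IntermediateField.adjoin ℂ {s}) (E := E)).toLinearEquiv.finiteDimensional

/-- Every element is algebraic over the field generated by a transcendental element. -/
theorem isAlgebraic_adjoin (htr : Algebra.trdeg ℂ E = 1) {s : E} (hs : Transcendental ℂ s) :
    Algebra.IsAlgebraic (IntermediateField.adjoin ℂ {s}) E := by
  have hai : AlgebraicIndependent ℂ (fun _ : Unit => s) :=
    algebraicIndependent_unique_type_iff.2 hs
  have hb : IsTranscendenceBasis ℂ (fun _ : Unit => s) := by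
    apply AlgebraicIndependent.isTranscendenceBasis_of_trdeg_le_of_finite hai
    rw [htr]; simp
  have := hb.isAlgebraic_field
  rwa [Set.range_const] at this

/-- A transcendental element exists. -/
theorem exists_transcendental (htr : Algebra.trdeg ℂ E = 1) : ∃ s : E, Transcendental ℂ s := by
  by_contra hc
  push Not at hc
  have : Algebra.IsAlgebraic ℂ E := by
    refine ⟨fun x => ?_⟩
    have := hc x
    rwa [Transcendental, not_not] at this
  have h0 : Algebra.trdeg ℂ E = 0 := _root_.trdeg_eq_zero
  rw [h0] at htr
  exact zero_ne_one htr

/-- A transcendental element over which the field has minimal degree. -/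
theorem exists_min (hfg : ∃ S : Finset E, IntermediateField.adjoin ℂ (S : Set E) = ⊤)
    (htr : Algebra.trdeg ℂ E = 1) : ∃ s : E, Transcendental ℂ s ∧
      FiniteDimensional (IntermediateField.adjoin ℂ {s}) E ∧
      0 < Module.finrank (IntermediateField.adjoin ℂ {s}) E ∧
      ∀ t : E, Transcendental ℂ t → Module.finrank (IntermediateField.adjoin ℂ {s}) E ≤
        Module.finrank (IntermediateField.adjoin ℂ {t}) E := by
  classical
  have hex : ∃ n : ℕ, ∃ s : E, Transcendental ℂ s ∧
      Module.finrank (IntermediateField.adjoin ℂ {s}) E = n := by
    obtain ⟨s, hs⟩ := exists_transcendental htr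
    exact ⟨_, s, hs, rfl⟩
  obtain ⟨s, hs, hn⟩ := Nat.find_spec hex
  have hfin := finite_adjoin hfg htr hs
  refine ⟨s, hs, hfin, Module.finrank_pos, ?_⟩
  intro t ht
  rw [hn]
  exact Nat.find_min' hex ⟨t, ht, rfl⟩

/-- Degree one: the field is rational. -/
theorem adjoin_eq_top_of_finrank_eq_one {s : E}
    (h : Module.finrank (IntermediateField.adjoin ℂ {s}) E = 1) :
    IntermediateField.adjoin ℂ {s} = ⊤ :=
  IntermediateField.finrank_eq_one_iff_eq_top.1 h

end LCY.H97
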