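import Pool.Agent.Helper97.LCY.SBase

/-!
Jets at a point: every function of the local ring is congruent to a polynomial of degree less
than `μ` modulo functions of order at least `μ`.
-/

set_option autoImplicit false

open Polynomial Pool.Agent.Helper82.LCY

namespace LCY.H97

noncomputable section

variable {L : Type} [Field L] [Algebra ℂ L]

theorem cf_monomial (i j : ℕ) (c : ℂ) (e : ℕ × ℕ) :
    cf (monomial j (monomial i c)) e = if e = (i, j) then c else 0 := by
  unfold cf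
  rw [coeff_monomial]
  by_cases h : j = e.2
  · rw [if_pos h, coeff_monomial]
    by_cases h' : i = e.1
    · rw [if_pos h', if_pos (Prod.ext h'.symm h.symm)]
    · rw [if_neg h', if_neg (fun he => h' (by rw [he]))]
  · rw [if_neg h, coeff_zero, if_neg (fun he => h (by rw [he]))]

/-- Truncation of a polynomial. -/
theorem exists_trunc (p : ℂ[X][X]) (μ : ℕ) : ∃ q r : ℂ[X][X], p = q + r ∧
    (∀ e, cf q e ≠ 0 → e.1 + e.2 < μ) ∧ H62.OG μ r := by
  classical
  refine ⟨∑ e ∈ (bs p).filter (fun e => e.1 + e.2 < μ), monomial e.2 (monomial e.1 (cf p e)),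
    ∑ e ∈ (bs p).filter (fun e => ¬ e.1 + e.2 < μ), monomial e.2 (monomial e.1 (cf p e)), ?_, ?_, ?_⟩
  · rw [Finset.sum_filter_add_sum_filter_not]
    exact eq_sum_bs p
  · intro e he
    by_contra hc
    apply he
    have : ∀ s : Finset (ℕ × ℕ), (∀ a ∈ s, a ≠ e) →
        cf (∑ a ∈ s, monomial a.2 (monomial a.1 (cf p a))) e = 0 := by
      intro s hs
      unfold cf
      rw [finsetSum_coeff, finsetSum_coeff]
      apply Finset.sum_eq_zero
      intro a ha
      have := cf_monomial a.1 a.2 (cf p a) e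
      unfold cf at this
      rw [this, if_neg]
      intro h; exact hs a ha h.symm
    apply this
    intro a ha h
    rw [Finset.mem_filter] at ha
    rw [h] at ha
    exact hc ha.2
  · intro e he
    by_contra hc
    apply he
    have : ∀ s : Finset (ℕ × ℕ), (∀ a ∈ s, a ≠ e) →
        cf (∑ a ∈ s, monomial a.2 (monomial a.1 (cf p a))) e = 0 := by
      intro s hs
      unfold cf
      rw [finsetSum_coeff, finsetSum_coeff]
      apply Finset.sum_eq_zero
      intro a ha
      have := cf_monomial a.1 a.2 (cf p a) e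
      unfold cf at this
      rw [this, if_neg]
      intro h; exact hs a ha h.symm
    apply this
    intro a ha h
    rw [Finset.mem_filter] at ha
    rw [h] at ha
    exact ha.2 (not_le.1 hc)

theorem og_pow {u : ℂ[X][X]} (hu : H62.OG 1 u) : ∀ n : ℕ, H62.OG n (u ^ n)
  | 0 => by rw [pow_zero]; exact H62.og_zero _
  | n + 1 => by
    rw [pow_succ]
    exact (og_pow hu n).mul hu

theorem cf_one_zero : cf (1 : ℂ[X][X]) (0, 0) = 1 := by simp [cf]

/-- **JET.** -/
theorem jet (P : Coord L) (w : DVal L) (hw : ∀ f : ℂ[X][X], f ≠ 0 → w.v (ev P.x P.y f) = ordn f)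
    {z : L} (hz : z ∈ P.loc) (μ : ℕ) : ∃ q : ℂ[X][X], (∀ e, cf q e ≠ 0 → e.1 + e.2 < μ) ∧
      (z - ev P.x P.y q = 0 ∨ (μ : ℤ) ≤ w.v (z - ev P.x P.y q)) := by
  obtain ⟨f, g, hg, rfl⟩ := hz
  have hg0 : g ≠ 0 := by
    rintro rfl
    exact hg (H62.cf_zero _)
  set c := cf g (0, 0) with hc
  set u : ℂ[X][X] := 1 - C (C c⁻¹) * g with hu
  have hu1 : H62.OG 1 u := by
    rw [H62.og_one, hu, H62.cf_sub, H62.cf_CC_mul, cf_one_zero, ← hc, inv_mul_cancel₀ hg, sub_self]
  set s : ℂ[X][X] := ∑ n ∈ Finset.range μ, u ^ n with hs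
  have h1 : C (C c⁻¹) * g * s = 1 - u ^ μ := by
    have h2 : C (C c⁻¹) * g = 1 - u := by rw [hu]; ring
    rw [h2, hs, mul_neg_geom_sum]
  obtain ⟨q, r, h3, h4, h5⟩ := exists_trunc (f * (C (C c⁻¹) * s)) μ
  refine ⟨q, h4, ?_⟩
  have hg1 : ev P.x P.y g ≠ 0 := P.ne hg0
  have h6 : ev P.x P.y f / ev P.x P.y g - ev P.x P.y q
      = ev P.x P.y (f * u ^ μ + r * g) / ev P.x P.y g := by
    rw [div_sub' hg1, div_left_inj' hg1]
    rw [← map_mul, ← map_sub]
    congr 1
    have h7 : q = f * (C (C c⁻¹) * s) - r := by rw [h3]; ring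
    rw [h7]
    have h8 : g * (f * (C (C c⁻¹) * s) - r) = f * (C (C c⁻¹) * g * s) - r * g := by ring
    rw [h8, h1]; ring
  rw [h6]
  by_cases h0 : f * u ^ μ + r * g = 0
  · left; rw [h0, map_zero, zero_div]
  · right
    rw [w.map_div (P.ne h0) hg1, hw _ h0, hw _ hg0]
    have h7 : H62.OG μ (f * u ^ μ + r * g) := by
      apply H62.OG.add
      · exact (og_pow hu1 μ).mul_left f
      · rw [mul_comm]; exact h5.mul_left g
    have h8 : ordn g = 0 := ordn_eq ⟨H62.og_zero _, (0, 0), hg, rfl⟩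
    have h9 : μ ≤ ordn (f * u ^ μ + r * g) := (ordn_oe h0).le h7
    rw [h8]; omega

/-- The index set of the monomials of degree less than `μ`. -/
abbrev Ix (μ : ℕ) : Type := Σ n : Fin μ, Fin (n + 1)

theorem card_Ix (μ : ℕ) : 2 * Fintype.card (Ix μ) = μ * (μ + 1) := by
  unfold Ix
  rw [Fintype.card_sigma]
  simp only [Fintype.card_fin]
  rw [Fin.sum_univ_eq_sum_range (fun n => n + 1) μ]
  induction μ with
  | zero => simp
  | succ n ih =>
    rw [Finset.sum_range_succ, mul_add, ih]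
    ring

/-- The monomials. -/
def mon (P : Coord L) {μ : ℕ} (a : Ix μ) : L := P.x ^ (a.2 : ℕ) * P.y ^ ((a.1 : ℕ) - (a.2 : ℕ))

/-- The space of polynomials of degree less than `μ`. -/
def Vm (P : Coord L) (μ : ℕ) : Submodule ℂ L := Submodule.span ℂ (Set.range (mon P (μ := μ)))

theorem ev_mem_Vm (P : Coord L) {μ : ℕ} {q : ℂ[X][X]} (hq : ∀ e, cf q e ≠ 0 → e.1 + e.2 < μ) :
    ev P.x P.y q ∈ Vm P μ := by
  rw [ev_eq_sum]
  apply Submodule.sum_mem
  intro e he
  have h1 := hq e (mem_bs.1 he)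
  have h2 : algebraMap ℂ L (cf q e) * (P.x ^ e.1 * P.y ^ e.2)
      = cf q e • mon P (μ := μ) ⟨⟨e.1 + e.2, h1⟩, ⟨e.1, by simp⟩⟩ := by
    rw [Algebra.smul_def]
    simp [mon]
  have h3 : algebraMap ℂ L (cf q e) * (P.x ^ e.1 * P.y ^ e.2) ∈ Vm P μ := by
    rw [h2]
    exact Submodule.smul_mem _ _ (Submodule.subset_span ⟨_, rfl⟩)
  simpa [mul_assoc] using h3

instance (P : Coord L) (μ : ℕ) : Module.Finite ℂ (Vm P μ) := by
  unfold Vm
  exact FiniteDimensional.span_of_finite ℂ (Set.finite_range _)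

theorem finrank_Vm_le (P : Coord L) (μ : ℕ) :
    2 * Module.finrank ℂ (Vm P μ) ≤ μ * (μ + 1) := by
  rw [← card_Ix]
  have := finrank_range_le_card (R := ℂ) (mon P (μ := μ))
  unfold Vm
  exact Nat.mul_le_mul_left 2 this

end

end LCY.H97
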