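import Mathlib

/-!
Reduced bases over the rational functions, abstract part: a module over the polynomials and a
degree filtration have a common basis.
-/

set_option autoImplicit false

open Polynomial

namespace LCY.RB

noncomputable section

/-- Euclidean division: a rational function is a polynomial plus a proper one. -/
theorem exists_poly_add (f : RatFunc ℂ) : ∃ (p : ℂ[X]) (r : RatFunc ℂ),
    f = algebraMap ℂ[X] (RatFunc ℂ) p + r ∧ (r ≠ 0 → r.intDegree < 0) := by
  have hd : f.denom ≠ 0 := f.denom_ne_zero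
  have hd' : algebraMap ℂ[X] (RatFunc ℂ) f.denom ≠ 0 := RatFunc.algebraMap_ne_zero hd
  refine ⟨f.num / f.denom, algebraMap ℂ[X] (RatFunc ℂ) (f.num % f.denom)
    / algebraMap ℂ[X] (RatFunc ℂ) f.denom, ?_, ?_⟩
  · rw [← RatFunc.num_div_denom f]
    rw [RatFunc.num_div_denom f, eq_comm, ← RatFunc.num_div_denom f, RatFunc.num_div_denom f]
    rw [eq_comm]
    conv_lhs => rw [← RatFunc.num_div_denom f]
    rw [div_eq_iff hd', add_mul, div_mul_cancel₀ _ hd', ← map_mul, ← map_add]
    congr 1
    rw [mul_comm, EuclideanDomain.div_add_mod]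
  · intro hr
    have h1 : f.num % f.denom ≠ 0 := by
      intro h; apply hr; rw [h, map_zero, zero_div]
    rw [RatFunc.intDegree_div (RatFunc.algebraMap_ne_zero h1) hd', RatFunc.intDegree_polynomial,
      RatFunc.intDegree_polynomial]
    have h2 : (f.num % f.denom).natDegree < f.denom.natDegree :=
      Polynomial.natDegree_lt_natDegree h1 (Polynomial.degree_mod_lt _ hd)
    omega

/-- A rational function without pole at infinity is a constant plus one that vanishes there. -/
theorem exists_const_add (f : RatFunc ℂ) (hf : f.intDegree ≤ 0) : ∃ (c : ℂ) (r : RatFunc ℂ),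
    f = RatFunc.C c + r ∧ (r ≠ 0 → r.intDegree < 0) ∧ (f ≠ 0 → f.intDegree = 0 → c ≠ 0) := by
  obtain ⟨p, r, h1, h2⟩ := exists_poly_add f
  have h3 : p.natDegree = 0 := by
    by_contra h
    have hp : p ≠ 0 := by rintro rfl; simp at h
    have hp' : algebraMap ℂ[X] (RatFunc ℂ) p ≠ 0 := RatFunc.algebraMap_ne_zero hp
    by_cases hr : r = 0
    · rw [hr, add_zero] at h1
      rw [h1, RatFunc.intDegree_polynomial] at hf
      omega
    · have hr' : -r ≠ 0 := neg_ne_zero.2 hr
      have h4 : algebraMap ℂ[X] (RatFunc ℂ) p = f + -r := by rw [h1]; ring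
      have h5 := RatFunc.intDegree_add_le (x := f) (y := -r) hr' (by rw [← h4]; exact hp')
      rw [← h4, RatFunc.intDegree_polynomial, RatFunc.intDegree_neg] at h5
      have h6 := h2 hr
      have h7 : max f.intDegree r.intDegree ≤ 0 := max_le hf (by omega)
      omega
  obtain ⟨c, rfl⟩ : ∃ c, p = Polynomial.C c := ⟨p.coeff 0, Polynomial.eq_C_of_natDegree_eq_zero h3⟩
  refine ⟨c, r, by rw [h1, RatFunc.algebraMap_C], h2, ?_⟩
  intro hf0 hf1 hc
  rw [hc, map_zero, map_zero, zero_add] at h1
  subst h1
  have := h2 hf0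
  omega

variable {E : Type} [AddCommGroup E] [Module (RatFunc ℂ) E]

/-- A lattice over the polynomials with a degree filtration. `R` is the lattice, `F` the part of
degree at most zero. -/
structure Lat (R F : AddSubgroup E) : Prop where
  smul_R : ∀ (p : ℂ[X]) x, x ∈ R → algebraMap ℂ[X] (RatFunc ℂ) p • x ∈ R
  smul_F : ∀ (f : RatFunc ℂ) x, f.intDegree ≤ 0 → x ∈ F → f • x ∈ F
  span_R : ∀ x, ∃ p : ℂ[X], p ≠ 0 ∧ algebraMap ℂ[X] (RatFunc ℂ) p • x ∈ R
  span_F : ∀ x, ∃ m : ℤ, (RatFunc.X : RatFunc ℂ) ^ (-m) • x ∈ F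
  pos : ∀ x, x ∈ R → (RatFunc.X : RatFunc ℂ) • x ∈ F → x = 0

/-- The degree of `x` is at most `m`. -/
def D (F : AddSubgroup E) (m : ℤ) (x : E) : Prop := (RatFunc.X : RatFunc ℂ) ^ (-m) • x ∈ F

theorem X_ne : (RatFunc.X : RatFunc ℂ) ≠ 0 := RatFunc.X_ne_zero

theorem intDegree_X_zpow (m : ℤ) : ((RatFunc.X : RatFunc ℂ) ^ m).intDegree = m := by
  have hn : ∀ n : ℕ, ((RatFunc.X : RatFunc ℂ) ^ n).intDegree = n := by
    intro n
    induction n with
    | zero => simp
    | succ n ih =>
      rw [pow_succ, RatFunc.intDegree_mul (pow_ne_zero _ X_ne) X_ne, ih, RatFunc.intDegree_X]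
      push_cast; ring
  rcases Int.eq_nat_or_neg m with ⟨n, rfl | rfl⟩
  · rw [zpow_natCast, hn]
  · rw [zpow_neg, RatFunc.intDegree_inv, zpow_natCast, hn]

variable {R F : AddSubgroup E}

theorem D_zero (m : ℤ) : D F m 0 := by
  unfold D; rw [smul_zero]; exact F.zero_mem

theorem D_add {m : ℤ} {x y : E} (hx : D F m x) (hy : D F m y) : D F m (x + y) := by
  unfold D at *; rw [smul_add]; exact F.add_mem hx hy

theorem D_neg {m : ℤ} {x : E} (hx : D F m x) : D F m (-x) := by
  unfold D at *; rw [smul_neg]; exact F.neg_mem hx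

theorem D_sum {ι : Type*} (s : Finset ι) {m : ℤ} {x : ι → E} (hx : ∀ i ∈ s, D F m (x i)) :
    D F m (∑ i ∈ s, x i) := by
  unfold D at *; rw [Finset.smul_sum]; exact F.sum_mem hx

theorem Lat.D_smul (h : Lat R F) {f : RatFunc ℂ} {m k : ℤ} {x : E} (hx : D F m x)
    (hf : f = 0 ∨ f.intDegree + m ≤ k) : D F k (f • x) := by
  rcases hf with rfl | hf
  · rw [zero_smul]; exact D_zero k
  · by_cases h0 : f = 0
    · rw [h0, zero_smul]; exact D_zero k
    unfold D at *
    have h1 : (RatFunc.X : RatFunc ℂ) ^ (-k) • f • x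
        = ((RatFunc.X : RatFunc ℂ) ^ (m - k) * f) • (RatFunc.X : RatFunc ℂ) ^ (-m) • x := by
      rw [smul_smul, smul_smul]
      congr 1
      have : (RatFunc.X : RatFunc ℂ) ^ (-k)
          = (RatFunc.X : RatFunc ℂ) ^ (m - k) * (RatFunc.X : RatFunc ℂ) ^ (-m) := by
        rw [← zpow_add₀ X_ne]; congr 1; ring
      rw [this]; ring
    rw [h1]
    apply h.smul_F _ _ _ hx
    rw [RatFunc.intDegree_mul (zpow_ne_zero _ X_ne) h0, intDegree_X_zpow]
    omega

theorem Lat.D_mono (h : Lat R F) {m k : ℤ} {x : E} (hmk : m ≤ k) (hx : D F m x) : D F k x := by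
  have := h.D_smul (f := 1) (k := k) hx (Or.inr (by simpa using hmk))
  rwa [one_smul] at this

theorem Lat.nonneg (h : Lat R F) {m : ℤ} {x : E} (hx : x ∈ R) (hm : D F m x) (h0 : x ≠ 0) :
    0 ≤ m := by
  by_contra hc
  apply h0
  apply h.pos x hx
  have := h.D_mono (k := -1) (by omega) hm
  unfold D at this
  simpa using this

/-- Families in the lattice that span, with bounds for the degrees. -/
structure Good (R F : AddSubgroup E) {n : ℕ} (b : Fin n → E) (e : Fin n → ℕ) : Prop where
  span : ⊤ ≤ Submodule.span (RatFunc ℂ) (Set.range b)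
  mem : ∀ i, b i ∈ R
  deg : ∀ i, D F (e i) (b i)

theorem Lat.exists_good (h : Lat R F) [FiniteDimensional (RatFunc ℂ) E] :
    ∃ (b : Fin (Module.finrank (RatFunc ℂ) E) → E) (e : Fin (Module.finrank (RatFunc ℂ) E) → ℕ),
      Good R F b e := by
  classical
  let B := Module.finBasis (RatFunc ℂ) E
  choose p hp0 hp using h.span_R
  choose m hm using h.span_F
  refine ⟨fun i => algebraMap ℂ[X] (RatFunc ℂ) (p (B i)) • B i,
    fun i => (m (algebraMap ℂ[X] (RatFunc ℂ) (p (B i)) • B i)).toNat, ?_, ?_, ?_⟩
  · rw [← B.span_eq, Submodule.span_le]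
    rintro _ ⟨i, rfl⟩
    have h1 : algebraMap ℂ[X] (RatFunc ℂ) (p (B i)) ≠ 0 := RatFunc.algebraMap_ne_zero (hp0 _)
    have h2 : B i = (algebraMap ℂ[X] (RatFunc ℂ) (p (B i)))⁻¹ •
        (algebraMap ℂ[X] (RatFunc ℂ) (p (B i)) • B i) := by
      rw [smul_smul, inv_mul_cancel₀ h1, one_smul]
    rw [SetLike.mem_coe, h2]
    exact Submodule.smul_mem _ _ (Submodule.subset_span ⟨i, rfl⟩)
  · intro i; exact hp _
  · intro i
    exact h.D_mono (Int.self_le_toNat _) (hm _)

/-- A good family with minimal total degree. -/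
structure MinGood (R F : AddSubgroup E) {n : ℕ} (b : Fin n → E) (e : Fin n → ℕ) : Prop
    extends Good R F b e where
  min : ∀ (b' : Fin n → E) (e' : Fin n → ℕ), Good R F b' e' → ∑ i, e i ≤ ∑ i, e' i

theorem Lat.exists_minGood (h : Lat R F) [FiniteDimensional (RatFunc ℂ) E] :
    ∃ (b : Fin (Module.finrank (RatFunc ℂ) E) → E) (e : Fin (Module.finrank (RatFunc ℂ) E) → ℕ),
      MinGood R F b e := by
  classical
  have hex : ∃ s : ℕ, ∃ (b : Fin (Module.finrank (RatFunc ℂ) E) → E)
      (e : Fin (Module.finrank (RatFunc ℂ) E) → ℕ), Good R F b e ∧ ∑ i, e i = s := by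
    obtain ⟨b, e, hb⟩ := h.exists_good
    exact ⟨_, b, e, hb, rfl⟩
  obtain ⟨b, e, hb, hs⟩ := Nat.find_spec hex
  refine ⟨b, e, hb, ?_⟩
  intro b' e' hb'
  rw [hs]
  exact Nat.find_min' hex ⟨b', e', hb', rfl⟩

theorem Good.linearIndependent [FiniteDimensional (RatFunc ℂ) E] {b : Fin (Module.finrank (RatFunc ℂ) E) → E}
    {e : Fin (Module.finrank (RatFunc ℂ) E) → ℕ} (hb : Good R F b e) :
    LinearIndependent (RatFunc ℂ) b :=
  linearIndependent_of_top_le_span_of_card_eq_finrank hb.span (by simp)

/-- The exchange lemma. -/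
theorem MinGood.exchange (h : Lat R F) [FiniteDimensional (RatFunc ℂ) E]
    {b : Fin (Module.finrank (RatFunc ℂ) E) → E}
    {e : Fin (Module.finrank (RatFunc ℂ) E) → ℕ} (hb : MinGood R F b e)
    (r : Fin (Module.finrank (RatFunc ℂ) E) → RatFunc ℂ) (hx : ∑ i, r i • b i ∈ R) (m : ℤ)
    (hm : D F m (∑ i, r i • b i)) (j : Fin (Module.finrank (RatFunc ℂ) E)) (hj : r j ≠ 0) :
    (e j : ℤ) ≤ m := by
  classical
  set x := ∑ i, r i • b i with hxdef
  have hx0 : x ≠ 0 := by
    intro h0
    exact hj ((Fintype.linearIndependent_iff.1 hb.toGood.linearIndependent) r h0 j)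
  have hm0 : 0 ≤ m := h.nonneg hx hm hx0
  by_contra hc
  have hc' : m < e j := not_le.1 hc
  have hg : Good R F (Function.update b j x) (Function.update e j m.toNat) := by
    refine ⟨?_, ?_, ?_⟩
    · have hmem : ∀ i, b i ∈ Submodule.span (RatFunc ℂ) (Set.range (Function.update b j x)) := by
        have hne : ∀ i, i ≠ j → b i ∈ Submodule.span (RatFunc ℂ) (Set.range (Function.update b j x)) := by
          intro i hi
          apply Submodule.subset_span
          exact ⟨i, by rw [Function.update_of_ne hi]⟩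
        intro i
        by_cases hi : i = j
        · subst hi
          have h1 : b i = (r i)⁻¹ • (x - ∑ k ∈ Finset.univ.erase i, r k • b k) := by
            have h2 : x = r i • b i + ∑ k ∈ Finset.univ.erase i, r k • b k := by
              rw [hxdef, Finset.add_sum_erase _ (fun k => r k • b k) (Finset.mem_univ i)]
            rw [h2, add_sub_cancel_right, smul_smul, inv_mul_cancel₀ hj, one_smul]
          rw [h1]
          apply Submodule.smul_mem
          apply Submodule.sub_mem
          · apply Submodule.subset_span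
            exact ⟨i, by rw [Function.update_self]⟩
          · apply Submodule.sum_mem
            intro k hk
            exact Submodule.smul_mem _ _ (hne k (Finset.ne_of_mem_erase hk))
        · exact hne i hi
      refine hb.span.trans ?_
      rw [Submodule.span_le]
      rintro _ ⟨i, rfl⟩
      exact hmem i
    · intro i
      by_cases hi : i = j
      · subst hi; rw [Function.update_self]; exact hx
      · rw [Function.update_of_ne hi]; exact hb.mem i
    · intro i
      by_cases hi : i = j
      · subst hi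
        rw [Function.update_self, Function.update_self, Int.toNat_of_nonneg hm0]
        exact hm
      · rw [Function.update_of_ne hi, Function.update_of_ne hi]; exact hb.deg i
  have h3 := hb.min _ _ hg
  have h4 : ∑ i, Function.update e j m.toNat i < ∑ i, e i := by
    apply Finset.sum_lt_sum
    · intro i _
      by_cases hi : i = j
      · subst hi; rw [Function.update_self]; omega
      · rw [Function.update_of_ne hi]
    · exact ⟨j, Finset.mem_univ j, by rw [Function.update_self]; omega⟩
  omega

/-- The lattice consists of the polynomial combinations of a minimal good family. -/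
theorem MinGood.mem_iff (h : Lat R F) [FiniteDimensional (RatFunc ℂ) E]
    {b : Fin (Module.finrank (RatFunc ℂ) E) → E}
    {e : Fin (Module.finrank (RatFunc ℂ) E) → ℕ} (hb : MinGood R F b e)
    (f : Fin (Module.finrank (RatFunc ℂ) E) → RatFunc ℂ) :
    ∑ i, f i • b i ∈ R ↔ ∀ i, ∃ p : ℂ[X], f i = algebraMap ℂ[X] (RatFunc ℂ) p := by
  classical
  constructor
  · intro hx
    choose p r hpr hr using fun i => exists_poly_add (f i)
    have h1 : ∑ i, r i • b i ∈ R := by
      have h2 : ∑ i, r i • b i
          = ∑ i, f i • b i - ∑ i, algebraMap ℂ[X] (RatFunc ℂ) (p i) • b i := by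
        rw [← Finset.sum_sub_distrib]
        refine Finset.sum_congr rfl fun i _ => ?_
        rw [← sub_smul, hpr i]
        congr 1; ring
      rw [h2]
      exact R.sub_mem hx (R.sum_mem fun i _ => h.smul_R _ _ (hb.mem i))
    have h2 : ∀ i, r i = 0 := by
      by_contra hc
      push Not at hc
      obtain ⟨i0, hi0⟩ := hc
      obtain ⟨j, hj, hjmax⟩ := Finset.exists_max_image (Finset.univ.filter fun i => r i ≠ 0) e
        ⟨i0, by simpa using hi0⟩
      have hj0 : r j ≠ 0 := by simpa using hj
      have h3 : D F ((e j : ℤ) - 1) (∑ i, r i • b i) := by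
        apply D_sum
        intro i _
        by_cases hi : r i = 0
        · rw [hi, zero_smul]; exact D_zero _
        · apply h.D_smul (hb.deg i)
          right
          have h4 := hr i hi
          have h5 := hjmax i (by simpa using hi)
          omega
      have h4 := hb.exchange h r h1 _ h3 j hj0
      omega
    intro i
    refine ⟨p i, ?_⟩
    rw [hpr i, h2 i, add_zero]
  · intro hf
    choose p hp using hf
    apply R.sum_mem
    intro i _
    rw [hp i]
    exact h.smul_R _ _ (hb.mem i)

/-- The degree of a combination of a minimal good family. -/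
theorem MinGood.deg_iff (h : Lat R F) [FiniteDimensional (RatFunc ℂ) E]
    {b : Fin (Module.finrank (RatFunc ℂ) E) → E}
    {e : Fin (Module.finrank (RatFunc ℂ) E) → ℕ} (hb : MinGood R F b e)
    (f : Fin (Module.finrank (RatFunc ℂ) E) → RatFunc ℂ) (m : ℤ) :
    D F m (∑ i, f i • b i) ↔ ∀ i, f i = 0 ∨ (f i).intDegree + e i ≤ m := by
  classical
  constructor
  · intro hx
    by_contra hc
    push Not at hc
    obtain ⟨i0, hi0, hi0'⟩ := hc
    -- the maximal degree
    obtain ⟨i1, hi1, hmax⟩ := Finset.exists_max_image (Finset.univ.filter fun i => f i ≠ 0)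
      (fun i => (f i).intDegree + e i) ⟨i0, by simpa using hi0⟩
    set M : ℤ := (f i1).intDegree + e i1 with hM
    have hM' : m < M := lt_of_lt_of_le hi0' (hmax i0 (by simpa using hi0))
    have hf1 : f i1 ≠ 0 := by simpa using hi1
    -- normalised coefficients
    set g : Fin (Module.finrank (RatFunc ℂ) E) → RatFunc ℂ :=
      fun i => (RatFunc.X : RatFunc ℂ) ^ ((e i : ℤ) - M) * f i with hg
    have hgdeg : ∀ i, f i ≠ 0 → (g i).intDegree = (f i).intDegree + e i - M := by
      intro i hi
      rw [hg]
      simp only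
      rw [RatFunc.intDegree_mul (zpow_ne_zero _ X_ne) hi, intDegree_X_zpow]
      ring
    have hgle : ∀ i, (g i).intDegree ≤ 0 := by
      intro i
      by_cases hi : f i = 0
      · rw [hg]; simp [hi]
      · rw [hgdeg i hi]
        have := hmax i (by simpa using hi)
        omega
    choose c r hcr hr hc0 using fun i => exists_const_add (g i) (hgle i)
    -- the sum of the leading terms
    have h1 : D F (M - 1) (∑ i, (RatFunc.C (c i) * (RatFunc.X : RatFunc ℂ) ^ (M - (e i : ℤ))) • b i) := by
      have h2 : ∑ i, (RatFunc.C (c i) * (RatFunc.X : RatFunc ℂ) ^ (M - (e i : ℤ))) • b i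
          = ∑ i, f i • b i + - ∑ i, (r i * (RatFunc.X : RatFunc ℂ) ^ (M - (e i : ℤ))) • b i := by
        rw [← sub_eq_add_neg, ← Finset.sum_sub_distrib]
        refine Finset.sum_congr rfl fun i _ => ?_
        rw [← sub_smul]
        congr 1
        have h3 : f i = g i * (RatFunc.X : RatFunc ℂ) ^ (M - (e i : ℤ)) := by
          rw [hg]
          simp only
          rw [mul_comm ((RatFunc.X : RatFunc ℂ) ^ ((e i : ℤ) - M)), mul_assoc,
            ← zpow_add₀ X_ne]
          have : (e i : ℤ) - M + (M - (e i : ℤ)) = 0 := by ring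
          rw [this, zpow_zero, mul_one]
        rw [h3, hcr i]; ring
      rw [h2]
      apply D_add
      · exact h.D_mono (by omega) hx
      · apply D_neg
        apply D_sum
        intro i _
        by_cases hi : r i = 0
        · rw [hi, zero_mul, zero_smul]; exact D_zero _
        · apply h.D_smul (hb.deg i)
          right
          rw [RatFunc.intDegree_mul hi (zpow_ne_zero _ X_ne), intDegree_X_zpow]
          have := hr i hi
          omega
    have hc1 : c i1 ≠ 0 := by
      apply hc0 i1
      · rw [hg]; exact mul_ne_zero (zpow_ne_zero _ X_ne) hf1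
      · rw [hgdeg i1 hf1]; omega
    obtain ⟨j, hj, hjmax⟩ := Finset.exists_max_image (Finset.univ.filter fun i => c i ≠ 0) e
      ⟨i1, by simpa using hc1⟩
    have hj0 : c j ≠ 0 := by simpa using hj
    set r' : Fin (Module.finrank (RatFunc ℂ) E) → RatFunc ℂ :=
      fun i => RatFunc.C (c i) * (RatFunc.X : RatFunc ℂ) ^ ((e j : ℤ) - (e i : ℤ)) with hr'
    have h3 : ∑ i, r' i • b i = (RatFunc.X : RatFunc ℂ) ^ ((e j : ℤ) - M) •
        ∑ i, (RatFunc.C (c i) * (RatFunc.X : RatFunc ℂ) ^ (M - (e i : ℤ))) • b i := by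
      rw [Finset.smul_sum]
      refine Finset.sum_congr rfl fun i _ => ?_
      rw [smul_smul, hr']
      congr 1
      simp only
      rw [mul_comm ((RatFunc.X : RatFunc ℂ) ^ ((e j : ℤ) - M)), mul_assoc, ← zpow_add₀ X_ne]
      congr 2
      ring
    have h4 : D F ((e j : ℤ) - 1) (∑ i, r' i • b i) := by
      rw [h3]
      apply h.D_smul h1
      right
      rw [intDegree_X_zpow]; omega
    have h5 : ∑ i, r' i • b i ∈ R := by
      apply R.sum_mem
      intro i _
      by_cases hi : c i = 0
      · rw [hr']; simp only [hi, map_zero, zero_mul, zero_smul]; exact R.zero_mem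
      · have h6 : e i ≤ e j := hjmax i (by simpa using hi)
        have h7 : r' i = algebraMap ℂ[X] (RatFunc ℂ) (Polynomial.C (c i) * Polynomial.X ^ (e j - e i)) := by
          rw [hr', map_mul, map_pow, RatFunc.algebraMap_C, RatFunc.algebraMap_X]
          simp only
          congr 1
          rw [← zpow_natCast, Nat.cast_sub h6]
        rw [h7]
        exact h.smul_R _ _ (hb.mem i)
    have h6 := hb.exchange h r' h5 _ h4 j (by
      rw [hr']
      exact mul_ne_zero ((_root_.map_ne_zero _).2 hj0) (zpow_ne_zero _ X_ne))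
    omega
  · intro hf
    apply D_sum
    intro i _
    exact h.D_smul (hb.deg i) (hf i)

end

end LCY.RB
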