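import Pool.Agent.Helper97.LCY.OInf
import Pool.Agent.Helper97.LCY.RB1

/-!
Reduced bases of function fields of one variable: a basis of the integral closure of the
polynomials which, after division by powers of the variable, is a basis of the integral closure
of the local ring at infinity.
-/

set_option autoImplicit false

open Polynomial

namespace LCY.RB

noncomputable section

variable {E : Type} [Field E] [Algebra ℂ[X] E] [Algebra (RatFunc ℂ) E]

/-- The elements integral over the polynomials. -/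
def R0 (E : Type) [Field E] [Algebra ℂ[X] E] : AddSubgroup E :=
  (integralClosure ℂ[X] E).toSubring.toAddSubgroup

/-- The elements integral over the local ring at infinity. -/
def F0 (E : Type) [Field E] [Algebra (RatFunc ℂ) E] : AddSubgroup E :=
  (integralClosure OInf E).toSubring.toAddSubgroup

omit [Algebra (RatFunc ℂ) E] in
theorem mem_R0 {x : E} : x ∈ R0 E ↔ IsIntegral ℂ[X] x := Iff.rfl

omit [Algebra ℂ[X] E] in
theorem mem_F0 {x : E} : x ∈ F0 E ↔ IsIntegral OInf x := Iff.rfl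

/-- A constant of the function field. -/
abbrev cst (E : Type) [Field E] [Algebra (RatFunc ℂ) E] (c : ℂ) : E :=
  algebraMap (RatFunc ℂ) E (RatFunc.C c)

/-- Integral over the polynomials and over the local ring at infinity: a constant. -/
theorem exists_const [IsScalarTower ℂ[X] (RatFunc ℂ) E] {x : E} (h0 : IsIntegral ℂ[X] x)
    (h1 : IsIntegral OInf x) : ∃ c : ℂ, x = cst E c := by
  let _ : Algebra ℂ E := ((algebraMap (RatFunc ℂ) E).comp (RatFunc.C : ℂ →+* RatFunc ℂ)).toAlgebra
  have hm0 := minpoly.isIntegrallyClosed_eq_field_fractions' (RatFunc ℂ) h0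
  have hm1 := minpoly.isIntegrallyClosed_eq_field_fractions' (RatFunc ℂ) h1
  -- the coefficients are constants
  have hc : ∀ i, ∃ c : ℂ, (minpoly (RatFunc ℂ) x).coeff i = RatFunc.C c := by
    intro i
    have h2 : (minpoly (RatFunc ℂ) x).coeff i
        = algebraMap ℂ[X] (RatFunc ℂ) ((minpoly ℂ[X] x).coeff i) := by
      rw [hm0, coeff_map]
    have h3 : ((minpoly (RatFunc ℂ) x).coeff i).intDegree ≤ 0 := by
      rw [hm1, coeff_map]
      exact ((minpoly OInf x).coeff i).2
    rw [h2, RatFunc.intDegree_polynomial] at h3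
    have h4 : ((minpoly ℂ[X] x).coeff i).natDegree = 0 := by omega
    refine ⟨((minpoly ℂ[X] x).coeff i).coeff 0, ?_⟩
    rw [h2]
    conv_lhs => rw [Polynomial.eq_C_of_natDegree_eq_zero h4]
    rw [RatFunc.algebraMap_C]
  have hlift : minpoly (RatFunc ℂ) x ∈ Polynomial.lifts (RatFunc.C : ℂ →+* RatFunc ℂ) := by
    rw [Polynomial.lifts_iff_coeff_lifts]
    intro i
    obtain ⟨c, hc⟩ := hc i
    exact ⟨c, hc.symm⟩
  have hmonic : (minpoly (RatFunc ℂ) x).Monic := by
    rw [hm0]; exact (minpoly.monic h0).map _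
  obtain ⟨Q, hQ, -, hQm⟩ := Polynomial.lifts_and_degree_eq_and_monic hlift hmonic
  have hQx : aeval x Q = 0 := by
    have h5 : aeval x (minpoly (RatFunc ℂ) x) = 0 := minpoly.aeval _ _
    rw [← hQ, aeval_def, eval₂_map] at h5
    rw [aeval_def]
    exact h5
  have hint : IsIntegral ℂ x := ⟨Q, hQm, hQx⟩
  have hdeg : (minpoly ℂ x).degree = 1 :=
    IsAlgClosed.degree_eq_one_of_irreducible ℂ (minpoly.irreducible hint)
  obtain ⟨c, hc⟩ := minpoly.mem_range_of_degree_eq_one ℂ x hdeg
  exact ⟨c, hc.symm⟩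

theorem intDegree_sum_nonpos {f : RatFunc ℂ} {m k : ℕ} (hf : f.intDegree ≤ m) (hk : 1 ≤ k) :
    (f * ((RatFunc.X : RatFunc ℂ) ^ (-(m : ℤ))) ^ k).intDegree ≤ 0 := by
  by_cases h0 : f = 0
  · simp [h0]
  rw [← zpow_natCast, ← zpow_mul, RatFunc.intDegree_mul h0 (zpow_ne_zero _ X_ne),
    intDegree_X_zpow]
  have : (m : ℤ) * 1 ≤ (m : ℤ) * k := mul_le_mul_of_nonneg_left (by exact_mod_cast hk) (by omega)
  have h2 : -(m : ℤ) * (k : ℤ) = -((m : ℤ) * k) := by ring
  rw [h2]
  omega

omit [Algebra ℂ[X] E] in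
/-- Every element has a degree. -/
theorem exists_deg [FiniteDimensional (RatFunc ℂ) E] (x : E) :
    ∃ m : ℤ, IsIntegral OInf (algebraMap (RatFunc ℂ) E ((RatFunc.X : RatFunc ℂ) ^ (-m)) * x) := by
  classical
  set P := minpoly (RatFunc ℂ) x with hP
  have hx : IsIntegral (RatFunc ℂ) x := Algebra.IsIntegral.isIntegral x
  have hPm : P.Monic := minpoly.monic hx
  obtain ⟨m, hm⟩ : ∃ m : ℕ, ∀ i, (P.coeff i).intDegree ≤ m := by
    refine ⟨∑ i ∈ P.support, (P.coeff i).intDegree.toNat, ?_⟩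
    intro i
    by_cases hi : i ∈ P.support
    · have h1 : (P.coeff i).intDegree ≤ (P.coeff i).intDegree.toNat := Int.self_le_toNat _
      have h2 : (P.coeff i).intDegree.toNat ≤ ∑ i ∈ P.support, (P.coeff i).intDegree.toNat :=
        Finset.single_le_sum (f := fun i => (P.coeff i).intDegree.toNat) (by intros; omega) hi
      omega
    · rw [Polynomial.notMem_support_iff.1 hi, RatFunc.intDegree_zero]
      positivity
  refine ⟨m, ?_⟩
  set s : RatFunc ℂ := (RatFunc.X : RatFunc ℂ) ^ (-(m : ℤ)) with hs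
  have hco : (↑(scaleRoots P s).coeffs : Set (RatFunc ℂ)) ⊆ OInf := by
    intro a ha
    rw [Finset.mem_coe, Polynomial.mem_coeffs_iff] at ha
    obtain ⟨i, -, rfl⟩ := ha
    rw [SetLike.mem_coe, mem_OInf, coeff_scaleRoots]
    rcases lt_trichotomy i P.natDegree with h | h | h
    · exact intDegree_sum_nonpos (hm i) (by omega)
    · rw [h, Nat.sub_self, pow_zero, mul_one]
      have : P.coeff P.natDegree = 1 := hPm
      rw [this, RatFunc.intDegree_one]
    · rw [Polynomial.coeff_eq_zero_of_natDegree_lt h, zero_mul, RatFunc.intDegree_zero]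
  refine ⟨(scaleRoots P s).toSubring OInf hco, ?_, ?_⟩
  · rw [Polynomial.monic_toSubring]
    exact (Polynomial.monic_scaleRoots_iff s).2 hPm
  · have h1 : aeval (algebraMap (RatFunc ℂ) E s * x) (scaleRoots P s) = 0 :=
      scaleRoots_aeval_eq_zero (minpoly.aeval _ _)
    rw [aeval_def] at h1
    have h2 : scaleRoots P s
        = ((scaleRoots P s).toSubring OInf hco).map (algebraMap OInf (RatFunc ℂ)) :=
      (Polynomial.map_toSubring _ _ _).symm
    rw [h2, eval₂_map] at h1
    exact h1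

/-- The integral closures form a lattice with a degree filtration. -/
theorem lat [IsScalarTower ℂ[X] (RatFunc ℂ) E] [FiniteDimensional (RatFunc ℂ) E] :
    Lat (R0 E) (F0 E) where
  smul_R := by
    intro p x hx
    rw [mem_R0] at *
    rw [Algebra.smul_def, ← IsScalarTower.algebraMap_apply]
    exact IsIntegral.mul isIntegral_algebraMap hx
  smul_F := by
    intro f x hf hx
    rw [mem_F0] at *
    rw [Algebra.smul_def]
    exact IsIntegral.mul (isIntegral_algebraMap (R := OInf) (x := ⟨f, hf⟩)) hx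
  span_R := by
    intro x
    have h1 : IsAlgebraic ℂ[X] x := by
      have := IsLocalization.isAlgebraic (RatFunc ℂ) (nonZeroDivisors ℂ[X])
      have := Algebra.IsAlgebraic.trans ℂ[X] (RatFunc ℂ) E
      exact Algebra.IsAlgebraic.isAlgebraic x
    obtain ⟨p, hp, hpx⟩ := h1.exists_integral_multiple
    refine ⟨p, hp, ?_⟩
    rw [mem_R0, Algebra.smul_def, ← IsScalarTower.algebraMap_apply, ← Algebra.smul_def]
    exact hpx
  span_F := by
    intro x
    obtain ⟨m, hm⟩ := exists_deg x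
    exact ⟨m, by rw [mem_F0, Algebra.smul_def]; exact hm⟩
  pos := by
    intro x hx hx'
    rw [mem_R0] at hx
    rw [mem_F0, Algebra.smul_def] at hx'
    have h1 : IsIntegral OInf x := by
      have h2 : x = algebraMap (RatFunc ℂ) E ((RatFunc.X : RatFunc ℂ)⁻¹) *
          (algebraMap (RatFunc ℂ) E RatFunc.X * x) := by
        rw [← mul_assoc, ← map_mul, inv_mul_cancel₀ X_ne, map_one, one_mul]
      rw [h2]
      have h3 : ((RatFunc.X : RatFunc ℂ)⁻¹).intDegree ≤ 0 := by
        rw [RatFunc.intDegree_inv, RatFunc.intDegree_X]; omega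
      exact IsIntegral.mul (isIntegral_algebraMap (R := OInf) (x := ⟨_, h3⟩)) hx'
    obtain ⟨c, hc⟩ := exists_const hx h1
    by_contra hx0
    have hc0 : c ≠ 0 := by
      rintro rfl
      apply hx0
      rw [hc]; simp [cst]
    rw [hc, cst, ← map_mul] at hx'
    have h4 : IsIntegral OInf (RatFunc.X * RatFunc.C c : RatFunc ℂ) :=
      (isIntegral_algebraMap_iff (algebraMap (RatFunc ℂ) E).injective).1 hx'
    have h5 := OInf_of_isIntegral h4
    rw [RatFunc.intDegree_mul X_ne ((_root_.map_ne_zero _).2 hc0), RatFunc.intDegree_X,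
      RatFunc.intDegree_C] at h5
    omega

/-- Integral over the polynomials and of negative degree: zero. -/
theorem eq_zero_of_neg [IsScalarTower ℂ[X] (RatFunc ℂ) E] [FiniteDimensional (RatFunc ℂ) E]
    {x : E} {m : ℤ} (hm : m < 0) (h0 : IsIntegral ℂ[X] x)
    (h1 : IsIntegral OInf (algebraMap (RatFunc ℂ) E ((RatFunc.X : RatFunc ℂ) ^ (-m)) * x)) :
    x = 0 := by
  by_contra hx
  have h2 : D (F0 E) m x := by
    unfold D; rw [mem_F0, Algebra.smul_def]; exact h1
  have := lat.nonneg (mem_R0.2 h0) h2 hx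
  omega

/-- REDUCED BASIS of the field `E` over the rational functions. -/
theorem reduced_basis [IsScalarTower ℂ[X] (RatFunc ℂ) E] [FiniteDimensional (RatFunc ℂ) E] :
    ∃ (b : Module.Basis (Fin (Module.finrank (RatFunc ℂ) E)) (RatFunc ℂ) E)
      (e : Fin (Module.finrank (RatFunc ℂ) E) → ℕ),
      (∀ x : E, IsIntegral ℂ[X] x ↔ ∀ i, ∃ p : ℂ[X], b.repr x i = algebraMap ℂ[X] (RatFunc ℂ) p) ∧
      (∀ (x : E) (m : ℤ),
        IsIntegral OInf (algebraMap (RatFunc ℂ) E ((RatFunc.X : RatFunc ℂ) ^ (-m)) * x) ↔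
          ∀ i, b.repr x i = 0 ∨ (b.repr x i).intDegree + e i ≤ m) ∧
      (∀ i, IsIntegral ℂ[X] (b i)) ∧
      (∀ i, IsIntegral OInf
        (algebraMap (RatFunc ℂ) E ((RatFunc.X : RatFunc ℂ) ^ (-(e i : ℤ))) * b i)) ∧
      ∃ i₀, e i₀ = 0 ∧ (∃ c : ℂ, b i₀ = cst E c) ∧
        ∀ i, i ≠ i₀ → 1 ≤ e i ∧ b i ∉ Set.range (algebraMap (RatFunc ℂ) E) := by
  classical
  have h : Lat (R0 E) (F0 E) := lat
  obtain ⟨b, e, hb⟩ := h.exists_minGood
  let B : Module.Basis (Fin (Module.finrank (RatFunc ℂ) E)) (RatFunc ℂ) E :=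
    Module.Basis.mk hb.toGood.linearIndependent hb.span
  have hB : ∀ i, B i = b i := fun i => Module.Basis.mk_apply _ _ i
  have hsum : ∀ x : E, ∑ i, B.repr x i • b i = x := by
    intro x
    have := B.sum_repr x
    simpa only [hB] using this
  have hD : ∀ (x : E) (m : ℤ),
      IsIntegral OInf (algebraMap (RatFunc ℂ) E ((RatFunc.X : RatFunc ℂ) ^ (-m)) * x) ↔
        D (F0 E) m x := by
    intro x m
    unfold D; rw [mem_F0, Algebra.smul_def]
  have c1 : ∀ x : E, IsIntegral ℂ[X] x ↔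
      ∀ i, ∃ p : ℂ[X], B.repr x i = algebraMap ℂ[X] (RatFunc ℂ) p := by
    intro x
    rw [← mem_R0, ← hb.mem_iff h, hsum]
  have c2 : ∀ (x : E) (m : ℤ),
      IsIntegral OInf (algebraMap (RatFunc ℂ) E ((RatFunc.X : RatFunc ℂ) ^ (-m)) * x) ↔
        ∀ i, B.repr x i = 0 ∨ (B.repr x i).intDegree + e i ≤ m := by
    intro x m
    rw [hD, ← hb.deg_iff h, hsum]
  refine ⟨B, e, c1, c2, ?_, ?_, ?_⟩
  · intro i; rw [hB]; exact mem_R0.1 (hb.mem i)
  · intro i; rw [hB, hD]; exact hb.deg i
  · -- the constants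
    have hrepr0 : ∃ i₀, B.repr (1 : E) i₀ ≠ 0 := by
      by_contra hc
      push Not at hc
      have : B.repr (1 : E) = 0 := Finsupp.ext hc
      exact one_ne_zero ((LinearEquiv.map_eq_zero_iff B.repr).1 this)
    obtain ⟨i₀, hi₀⟩ := hrepr0
    have h1 : IsIntegral ℂ[X] (1 : E) := isIntegral_one
    have h2 : IsIntegral OInf
        (algebraMap (RatFunc ℂ) E ((RatFunc.X : RatFunc ℂ) ^ (-(0 : ℤ))) * (1 : E)) := by
      rw [neg_zero, zpow_zero, map_one, one_mul]; exact isIntegral_one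
    obtain ⟨p, hp⟩ := (c1 1).1 h1 i₀
    have h3 := ((c2 1 0).1 h2 i₀).resolve_left hi₀
    have h4 : e i₀ = 0 := by
      rw [hp, RatFunc.intDegree_polynomial] at h3
      omega
    have hconst : ∀ i, e i = 0 → ∃ c : ℂ, b i = cst E c := by
      intro i hi
      apply exists_const (mem_R0.1 (hb.mem i))
      have h5 := hb.deg i
      rw [← hD, hi, Nat.cast_zero, neg_zero, zpow_zero, map_one, one_mul] at h5
      exact h5
    obtain ⟨c0, hc0⟩ := hconst i₀ h4
    have hc0' : c0 ≠ 0 := by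
      rintro rfl
      apply B.ne_zero i₀
      rw [hB, hc0]; simp [cst]
    have hnot : ∀ i, i ≠ i₀ → b i ∉ Set.range (algebraMap (RatFunc ℂ) E) := by
      rintro i hi ⟨f, hf⟩
      -- dependence of b i and b i₀
      have h6 : B i = (f * (RatFunc.C c0)⁻¹) • B i₀ := by
        rw [hB, hB, hc0, Algebra.smul_def, cst, ← map_mul, mul_assoc,
          inv_mul_cancel₀ ((_root_.map_ne_zero _).2 hc0'), mul_one, hf]
      have h7 : B.repr (B i) i = (B.repr ((f * (RatFunc.C c0)⁻¹) • B i₀)) i := by rw [← h6]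
      rw [B.repr_self, Finsupp.single_eq_same, map_smul, Finsupp.smul_apply, B.repr_self,
        Finsupp.single_eq_of_ne hi, smul_zero] at h7
      exact one_ne_zero h7
    refine ⟨i₀, h4, ⟨c0, by rw [hB]; exact hc0⟩, ?_⟩
    intro i hi
    refine ⟨?_, by rw [hB]; exact hnot i hi⟩
    by_contra hc
    obtain ⟨c, hc⟩ := hconst i (by omega)
    exact hnot i hi ⟨RatFunc.C c, hc.symm⟩

end

end LCY.RB
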