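import Pool.Agent.Helper27.LCY.WitC
import Pool.Agent.Helper84.LCY.WitB
import Pool.Agent.Helper51.LCY.G1
import Pool.Agent.Helper81.LCY.SMc
import Pool.Agent.Helper81.LCY.Adic
import Pool.Agent.Helper27.LCY.BR6

/-!
Non-vacuity of the definition of log Calabi-Yau pairs: the projective plane with the three
coordinate lines and the form `dx dy / (x y)`.
-/

open MvPolynomial

namespace LCY

namespace W97

noncomputable section

variable {N : ℕ} {Y : Var N}

theorem int_of_resTr {L : Type} [Field L] [Algebra ℂ L] {v : DVal L} {t : L}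
    (ht : ResTr v.v t) : v.Int t := by
  have h1 := ht Polynomial.X Polynomial.X_ne_zero
  rw [Polynomial.aeval_X] at h1
  exact Or.inr h1.2.ge

/-- The maximal ideal of the local ring along a curve. -/
theorem max_iff {C : Var N} (hC : Y.I ≤ C.I) {v : DVal Y.L}
    (hv : ∀ a, v.Int a ↔ a ∈ Y.locRing C.I) (a : Y.locRing C.I) :
    a ∈ Y.maxIdeal C.I ↔ v.Pos (a : Y.L) := by
  have hlocal := Y.isLocalRing_locRing C.I hC
  constructor
  · intro ha
    have h2 : Y.maxIdeal C.I ≤ IsLocalRing.maximalIdeal (Y.locRing C.I) := by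
      unfold Var.maxIdeal
      rw [Ideal.span_le]
      intro b hb
      exact (IsLocalRing.mem_maximalIdeal b).2 hb
    have h3 := (IsLocalRing.mem_maximalIdeal a).1 (h2 ha)
    by_contra hc
    apply h3
    have ha0 : (a : Y.L) ≠ 0 := fun h => hc (Or.inl h)
    have h4 : v.v (a : Y.L) = 0 := by
      have h5 := ((hv a).2 a.2).resolve_left ha0
      by_contra h6
      exact hc (Or.inr (lt_of_le_of_ne h5 (Ne.symm h6)))
    have h7 : (a : Y.L)⁻¹ ∈ Y.locRing C.I := by
      rw [← hv]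
      right
      rw [v.map_inv ha0, h4]
      norm_num
    refine IsUnit.of_mul_eq_one ⟨(a : Y.L)⁻¹, h7⟩ ?_
    apply Subtype.ext
    exact mul_inv_cancel₀ ha0
  · intro ha
    apply Ideal.subset_span
    intro hu
    obtain ⟨w, hw⟩ := hu.exists_right_inv
    have h2 : (a : Y.L) * (w : Y.L) = 1 := congrArg Subtype.val hw
    have h3 := v.pos_mul_int ha ((hv w).2 w.2)
    rw [h2] at h3
    exact v.not_pos_one h3

/-- From the value of the form to the regular forms, value zero. -/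
theorem reg_mults (hY : Y.HasDim 2) {C : Var N} {ω : Y.Forms}
    {B : Bracket Y.L} (hB : ∀ a b, wdg a b = B.br a b • ω) {v : DVal Y.L}
    (hv : ∀ a, v.Int a ↔ a ∈ Y.locRing C.I) (hk : B.Wt v 0) :
    (Y.regForms C : Set Y.Forms) = Y.mults C ω := by
  apply Set.Subset.antisymm
  · intro m hm
    obtain ⟨c, rfl, hc⟩ := Y.regForms_val C hY ω B hB v hv hk m hm
    refine ⟨c, (hv c).1 ?_, rfl⟩
    rcases hc with hc | hc
    · exact Or.inl hc
    · exact Or.inr (by omega)
  · rintro m ⟨c, hc, rfl⟩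
    obtain ⟨t, π, ht, hπ0, hπ, hne, hval⟩ := hk
    refine AddSubgroup.subset_closure ⟨t, (hv t).1 (int_of_resTr ht), π,
      (hv π).1 (Or.inr (by omega)), c * (B.br t π)⁻¹, ?_, ?_⟩
    · rw [← hv]
      refine v.int_mul ((hv c).2 hc) (Or.inr ?_)
      rw [v.map_inv hne, hval]
      norm_num
    · rw [Y.form_eq, hB, smul_smul, mul_assoc, inv_mul_cancel₀ hne, mul_one]

/-- From the value of the form to the regular forms, value `-1`. -/
theorem reg_maxMults (hY : Y.HasDim 2) {C : Var N} (hC : Y.I ≤ C.I) {ω : Y.Forms}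
    {B : Bracket Y.L} (hB : ∀ a b, wdg a b = B.br a b • ω) {v : DVal Y.L}
    (hv : ∀ a, v.Int a ↔ a ∈ Y.locRing C.I) (hk : B.Wt v (-1)) :
    (Y.regForms C : Set Y.Forms) = Y.maxMults C ω := by
  apply Set.Subset.antisymm
  · intro m hm
    obtain ⟨c, rfl, hc⟩ := Y.regForms_val C hY ω B hB v hv hk m hm
    have hpos : v.Pos c := by
      rcases hc with hc | hc
      · exact Or.inl hc
      · exact Or.inr (by omega)
    exact ⟨⟨c, (hv c).1 hpos.int⟩, (max_iff hC hv _).2 hpos, rfl⟩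
  · rintro m ⟨c, hc, rfl⟩
    have hpos := (max_iff hC hv _).1 hc
    obtain ⟨t, π, ht, hπ0, hπ, hne, hval⟩ := hk
    refine AddSubgroup.subset_closure ⟨t, (hv t).1 (int_of_resTr ht), π,
      (hv π).1 (Or.inr (by omega)), (c : Y.L) * (B.br t π)⁻¹, ?_, ?_⟩
    · rw [← hv]
      rcases hpos with h0 | h0
      · left; rw [h0, zero_mul]
      · by_cases hc0 : (c : Y.L) = 0
        · left; rw [hc0, zero_mul]
        right
        rw [v.map_mul _ _ hc0 (inv_ne_zero hne), v.map_inv hne, hval]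
        omega
    · rw [Y.form_eq, hB, smul_smul, mul_assoc, inv_mul_cancel₀ hne, mul_one]

theorem y_mem {C : Var N} (hC : Y.I ≤ C.I) {i : Fin (N + 1)} (hi : (X i : S N) ∉ C.I)
    (j : Fin (N + 1)) : Y.y i j ∈ Y.locRing C.I := by
  have := Y.aeval_y_mem C.I hC hi (X j)
  rwa [aeval_X] at this

/-- The residues of the coordinates at a curve are not all constant. -/
theorem not_const {C : Var N} (hC : Y.I ≤ C.I) {i : Fin (N + 1)} (hi : (X i : S N) ∉ C.I)
    {v : DVal Y.L} (hv : ∀ a, v.Int a ↔ a ∈ Y.locRing C.I)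
    (h : ∀ j, ∃ c : ℂ, v.Pos (Y.y i j - algebraMap ℂ Y.L c)) : False := by
  have hint : ∀ j, v.Int (Y.y i j) := fun j => (hv _).2 (y_mem hC hi j)
  have hc : ∀ c : ℂ, v.Int (algebraMap ℂ Y.L c) := fun c =>
    (hv _).2 ((Y.locRing C.I).algebraMap_mem c)
  have key : ∀ f : S N, ∃ c : ℂ, v.Pos (aeval (Y.y i) f - algebraMap ℂ Y.L c) := by
    intro f
    induction f using MvPolynomial.induction_on with
    | C a => exact ⟨a, Or.inl (by rw [aeval_C, sub_self])⟩
    | add p q hp hq =>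
      obtain ⟨c, hc⟩ := hp
      obtain ⟨d, hd⟩ := hq
      refine ⟨c + d, ?_⟩
      have := v.pos_add hc hd
      rw [map_add, map_add]
      convert this using 1
      ring
    | mul_X p j hp =>
      obtain ⟨c, hc'⟩ := hp
      obtain ⟨d, hd⟩ := h j
      refine ⟨c * d, ?_⟩
      have h1 := v.pos_mul_int hc' (hint j)
      have h2 := v.pos_mul_int hd (hc c)
      have h3 := v.pos_add h1 h2
      rw [map_mul, map_mul, aeval_X]
      convert h3 using 1
      ring
  obtain ⟨t, ht⟩ := v.exists_res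
  obtain ⟨a, ha, s, hs, hs0, hsi, hts⟩ := (Y.isFracOf_aff C.I hC hi).frac t
    ((hv t).1 (int_of_resTr ht))
  obtain ⟨f, rfl⟩ := ha
  obtain ⟨g, rfl⟩ := hs
  obtain ⟨α, hα⟩ := key f
  obtain ⟨β, hβ⟩ := key g
  have hsi' := (hv _).2 hsi
  have hβ0 : β ≠ 0 := by
    rintro rfl
    rw [map_zero, sub_zero] at hβ
    have h1 := v.pos_mul_int hβ hsi'
    have h2 : aeval (Y.y i) g * ((aeval (Y.y i) : S N →ₐ[ℂ] Y.L).toRingHom g)⁻¹ = 1 :=
      mul_inv_cancel₀ hs0
    exact v.not_pos_one (h2 ▸ h1)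
  have h3 : v.Pos (t - algebraMap ℂ Y.L (α / β)) := by
    have h4 : v.Pos (aeval (Y.y i) f - algebraMap ℂ Y.L α -
        (aeval (Y.y i) g - algebraMap ℂ Y.L β) * algebraMap ℂ Y.L (α / β)) := by
      have h40 := v.pos_add hα (v.pos_mul_int hβ (hc (-(α / β))))
      rw [map_neg] at h40
      convert h40 using 1
      ring
    have h5 := v.pos_mul_int h4 hsi'
    have hβ' : algebraMap ℂ Y.L β ≠ 0 := by simpa using hβ0
    have h6 : t - algebraMap ℂ Y.L (α / β) = (aeval (Y.y i) f - algebraMap ℂ Y.L α -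
        (aeval (Y.y i) g - algebraMap ℂ Y.L β) * algebraMap ℂ Y.L (α / β)) *
        ((aeval (Y.y i) : S N →ₐ[ℂ] Y.L).toRingHom g)⁻¹ := by
      rw [hts]
      change aeval (Y.y i) f * (aeval (Y.y i) g)⁻¹ - _ = (_ - _ - _) * (aeval (Y.y i) g)⁻¹
      have hg0 : aeval (Y.y i) g ≠ 0 := hs0
      rw [map_div₀]
      field_simp
      ring
    rw [h6]
    exact h5
  have h4 := ht (Polynomial.X - Polynomial.C (α / β)) (Polynomial.X_sub_C_ne_zero _)
  rw [map_sub, Polynomial.aeval_X, Polynomial.aeval_C] at h4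
  rcases h3 with h5 | h5
  · exact h4.1 h5
  · rw [h4.2] at h5
    exact lt_irrefl _ h5

end

end W97

end LCY
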