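import Pool.Agent.Helper97.LCY.WitD

/-!
Non-vacuity of the definition of log Calabi-Yau pairs: the projective plane with the three
coordinate lines and the form `dx dy / (x y)`.
-/

open MvPolynomial

namespace LCY

namespace W97

noncomputable section

abbrev PP : Var 2 := Wit.P

theorem PP_I : PP.I = ⊥ := rfl

/-- A curve of the plane containing the equation of a coordinate line is that line. -/
theorem line_of_mem {C : Var 2} (hC : PP.IsCurveOn C) {l : Fin 3} (hl : (X l : S 2) ∈ C.I) :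
    C = coordLine l := by
  obtain ⟨i, hi⟩ := C.relevant
  obtain ⟨p, hp, -⟩ := C.exists_pt hi
  have hle : (coordLine l).I ≤ C.I := by
    rw [coordLine_I, Ideal.span_le]
    rintro _ rfl
    exact hl
  have hlp : (coordLine l).IsPt p := ⟨hp.1, fun f hf => hp.2 f (hle hf)⟩
  have hLC : PP.IsCurveOn (coordLine l) := ⟨by rw [PP_I]; exact bot_le, coordLine_dim l⟩
  have hN : PP.Normal := plane_normal PP PP_I
  obtain ⟨v, hv⟩ := br3 2 PP Wit.hasDim hN (coordLine l) hLC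
  obtain ⟨w, hw⟩ := br3 2 PP Wit.hasDim hN C hC
  refine (H81.curve_eq hLC hC hlp hp hv hw ?_).symm
  rintro z ⟨n, F, G, hF, hG, hGJ, hGI, hz⟩ hpos
  have hGL : G ∉ (coordLine l).I := fun h => hGJ ((coordLine l).le_ptIdeal p hlp h)
  have hGC : G ∉ C.I := fun h => hGJ (C.le_ptIdeal p hp h)
  by_cases hFL : F ∈ (coordLine l).I
  · exact H81.pos_of_not_unit hC.1 hw hF hG hGC (hle hFL) hz
  · exfalso
    have hz1 : z ∈ PP.locRing (coordLine l).I := ⟨n, F, G, hF, hG, hGL, hGI, hz⟩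
    have h1 := PP.isUnit_locRing (coordLine l).I ⟨z, hz1⟩ n F G hF hG hGI hFL
      (fun h => hFL (hLC.1 h)) hz
    obtain ⟨w', hw'⟩ := h1.exists_right_inv
    have h2 : z * (w' : PP.L) = 1 := congrArg Subtype.val hw'
    have h3 := v.pos_mul_int hpos ((hv w').2 w'.2)
    rw [h2] at h3
    exact v.not_pos_one h3

theorem y_eq (i j : Fin 3) : PP.y i j = Wit.w j / Wit.w i := by
  apply Subtype.ext
  rw [PP.coe_y]
  change _ = ((Wit.w j : PP.L) : PP.K) / ((Wit.w i : PP.L) : PP.K)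
  rw [Wit.coe_w, Wit.coe_w, div_div_div_cancel_right₀ (Wit.cls_X_ne 0)]

/-- The value of a coordinate is positive along the curve where it vanishes. -/
theorem pos_y {C : Var 2} (hC : PP.IsCurveOn C) {i j : Fin 3} (hi : (X i : S 2) ∉ C.I)
    (hj : (X j : S 2) ∈ C.I) {v : DVal PP.L} (hv : ∀ a, v.Int a ↔ a ∈ PP.locRing C.I) :
    v.Pos (PP.y i j) :=
  H81.pos_of_not_unit hC.1 hv (isHomogeneous_X ℂ j) (isHomogeneous_X ℂ i) hi hj (PP.coe_y i j)

theorem y_ne (i j : Fin 3) : PP.y i j ≠ 0 := by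
  rw [y_eq]
  exact div_ne_zero (Wit.w_ne _) (Wit.w_ne _)

/-- The value of a coordinate is zero along the curves where it does not vanish. -/
theorem zero_y {C : Var 2} (hC : PP.IsCurveOn C) {i j : Fin 3} (hi : (X i : S 2) ∉ C.I)
    (hj : (X j : S 2) ∉ C.I) {v : DVal PP.L} (hv : ∀ a, v.Int a ↔ a ∈ PP.locRing C.I) :
    v.v (PP.y i j) = 0 := by
  have h1 := ((hv _).2 (y_mem hC.1 hi j)).resolve_left (y_ne i j)
  have h2 := ((hv _).2 (y_mem hC.1 hj i)).resolve_left (y_ne j i)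
  have h3 : PP.y j i = (PP.y i j)⁻¹ := by rw [y_eq, y_eq, inv_div]
  rw [h3, v.map_inv (y_ne i j)] at h2
  omega

/-- The bracket of the form `du dv / (u v)`. -/
theorem exists_B : ∃ (ω : PP.Forms) (B : Bracket PP.L), ω ≠ 0 ∧
    (∀ a b, wdg a b = B.br a b • ω) ∧ B.br Wit.u Wit.v = Wit.u * Wit.v := by
  have huv : Wit.u * Wit.v ≠ 0 := mul_ne_zero (Wit.w_ne 1) (Wit.w_ne 2)
  have hω : (Wit.u * Wit.v)⁻¹ • wdg Wit.u Wit.v ≠ 0 :=
    smul_ne_zero (inv_ne_zero huv) Wit.wdg_uv_ne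
  obtain ⟨B, hB⟩ := exists_bracket Wit.trdeg hω
  refine ⟨_, B, hω, hB, ?_⟩
  have h1 := hB Wit.u Wit.v
  rw [smul_smul] at h1
  have h4 : B.br Wit.u Wit.v * (Wit.u * Wit.v)⁻¹ = 1 := by
    apply smul_left_injective PP.L Wit.wdg_uv_ne
    change (B.br Wit.u Wit.v * (Wit.u * Wit.v)⁻¹) • wdg Wit.u Wit.v = (1 : PP.L) • wdg Wit.u Wit.v
    rw [← h1, one_smul]
  rwa [← div_eq_mul_inv, div_eq_one_iff_eq huv] at h4

/-- The three charts. -/
theorem chart {B : Bracket PP.L} (hB : B.br Wit.u Wit.v = Wit.u * Wit.v) (i : Fin 3) :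
    ∃ (j k : Fin 3) (Q : Coord PP.L), i ≠ j ∧ i ≠ k ∧ j ≠ k ∧ Q.x = PP.y i j ∧ Q.y = PP.y i k ∧
      (B.br Q.x Q.y = Q.x * Q.y ∨ B.br Q.x Q.y = - (Q.x * Q.y)) := by
  have hu : Wit.u ≠ 0 := Wit.w_ne 1
  have hv : Wit.v ≠ 0 := Wit.w_ne 2
  fin_cases i
  · refine ⟨1, 2, Wit.coord, by decide, by decide, by decide, ?_, ?_, Or.inl hB⟩
    · rw [y_eq]
      change Wit.w 1 = Wit.w 1 / Wit.w 0
      rw [Wit.w_zero, div_one]
    · rw [y_eq]
      change Wit.w 2 = Wit.w 2 / Wit.w 0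
      rw [Wit.w_zero, div_one]
  · refine ⟨0, 2, Wit.coord.cinf, by decide, by decide, by decide, ?_, ?_, Or.inr ?_⟩
    · rw [y_eq, Wit.coord.cinf_x]
      change (Wit.w 1)⁻¹ = Wit.w 0 / Wit.w 1
      rw [Wit.w_zero, one_div]
    · rw [y_eq, Wit.coord.cinf_y]
      rfl
    · rw [Wit.coord.cinf_x, Wit.coord.cinf_y]
      change B.br (Wit.u)⁻¹ (Wit.v / Wit.u) = _
      rw [br_chart B hu, hB]
      change _ = - ((Wit.u)⁻¹ * (Wit.v / Wit.u))
      field_simp
  · obtain ⟨Q, hQx, hQy⟩ := Wit.coord.swap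
    have hQx' : Q.x = Wit.v := hQx
    have hQy' : Q.y = Wit.u := hQy
    refine ⟨0, 1, Q.cinf, by decide, by decide, by decide, ?_, ?_, Or.inl ?_⟩
    · rw [y_eq, Q.cinf_x, hQx']
      change (Wit.w 2)⁻¹ = Wit.w 0 / Wit.w 2
      rw [Wit.w_zero, one_div]
    · rw [y_eq, Q.cinf_y, hQx', hQy']
      rfl
    · rw [Q.cinf_x, Q.cinf_y, hQx', hQy', br_chart B hv, B.skew, hB]
      field_simp

theorem all3 : ∀ i j m : Fin 3, i ≠ j → i ≠ m → j ≠ m → ∀ l : Fin 3, l = i ∨ l = j ∨ l = m := by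
  decide

/-- The value of the form along a curve. -/
theorem value {B : Bracket PP.L} (hB : B.br Wit.u Wit.v = Wit.u * Wit.v) {C : Var 2}
    (hC : PP.IsCurveOn C) {v : DVal PP.L} (hv : ∀ a, v.Int a ↔ a ∈ PP.locRing C.I)
    {k : ℤ} (hk : B.Wt v k) :
    ((∀ l, (X l : S 2) ∉ C.I) → k = 0) ∧ ((∃ l, (X l : S 2) ∈ C.I) → k = -1) := by
  obtain ⟨i, hi⟩ := C.relevant
  obtain ⟨j, m, Q, hij, him, hjm, hQx, hQy, hbr⟩ := chart hB i
  have hall : ∀ l : Fin 3, l = i ∨ l = j ∨ l = m := all3 i j m hij him hjm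
  have hjx : v.Int Q.x := by rw [hQx]; exact (hv _).2 (y_mem hC.1 hi j)
  have hmx : v.Int Q.y := by rw [hQy]; exact (hv _).2 (y_mem hC.1 hi m)
  have hnc : ¬ ((∃ c : ℂ, v.Pos (Q.x - algebraMap ℂ PP.L c)) ∧
      ∃ c : ℂ, v.Pos (Q.y - algebraMap ℂ PP.L c)) := by
    rintro ⟨h1, h2⟩
    refine not_const hC.1 hi hv ?_
    intro l
    rcases hall l with h | h | h
    · rw [h]
      refine ⟨1, Or.inl ?_⟩
      rw [PP.y_self (Wit.X_notMem i), map_one, sub_self]
    · rw [h, ← hQx]; exact h1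
    · rw [h, ← hQy]; exact h2
  have hw := wtProp Wit.trdeg (H73.fg_of_hasDim PP Wit.hasDim) B v hk
  have h1 := hw.b2 Q hjx hmx hnc
  have hx0 : Q.x ≠ 0 := by rw [hQx]; exact y_ne i j
  have hy0 : Q.y ≠ 0 := by rw [hQy]; exact y_ne i m
  have h2 : v.v (B.br Q.x Q.y) = v.v Q.x + v.v Q.y := by
    rcases hbr with h | h
    · rw [h, v.map_mul _ _ hx0 hy0]
    · rw [h, v.map_neg (mul_ne_zero hx0 hy0), v.map_mul _ _ hx0 hy0]
  rw [h2] at h1
  constructor
  · intro hno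
    rw [hQx, hQy, zero_y hC hi (hno j) hv, zero_y hC hi (hno m) hv] at h1
    omega
  · rintro ⟨l, hl⟩
    rcases hall l with h | h | h
    · exact absurd (h ▸ hl) hi
    · subst h
      have hp : v.Pos Q.x := by rw [hQx]; exact pos_y hC hi hl hv
      have hm : (X m : S 2) ∉ C.I := by
        intro hm
        have hq : v.Pos Q.y := by rw [hQy]; exact pos_y hC hi hm hv
        exact hnc ⟨⟨0, by rwa [map_zero, sub_zero]⟩, ⟨0, by rwa [map_zero, sub_zero]⟩⟩
      have h3 : v.v Q.y = 0 := by rw [hQy]; exact zero_y hC hi hm hv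
      have hpX : v.Pos (ev Q.x Q.y (Polynomial.C Polynomial.X)) := by rw [ev_CX]; exact hp
      obtain ⟨p, hpr, hpp, hpd⟩ := exists_prime_centre v Q hjx hmx hnc
        (Polynomial.C_ne_zero.2 Polynomial.X_ne_zero) hpX
      have had := H81.adic_of_centre Q hpr (fun f => v.int_ev hjx hmx f) hpp hpd
      have hass : Associated p (Polynomial.C Polynomial.X) :=
        hpr.irreducible.associated_of_dvd H62.prime_CX.irreducible (hpd _ hpX)
      have h4 := H81.IsAdic.self (H81.IsAdic.of_associated had hass)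
      rw [ev_CX] at h4
      omega
    · subst h
      have hp : v.Pos Q.y := by rw [hQy]; exact pos_y hC hi hl hv
      have hm : (X j : S 2) ∉ C.I := by
        intro hm
        have hq : v.Pos Q.x := by rw [hQx]; exact pos_y hC hi hm hv
        exact hnc ⟨⟨0, by rwa [map_zero, sub_zero]⟩, ⟨0, by rwa [map_zero, sub_zero]⟩⟩
      have h3 : v.v Q.x = 0 := by rw [hQx]; exact zero_y hC hi hm hv
      have hpX : v.Pos (ev Q.x Q.y Polynomial.X) := by rw [ev_X]; exact hp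
      obtain ⟨p, hpr, hpp, hpd⟩ := exists_prime_centre v Q hjx hmx hnc
        Polynomial.X_ne_zero hpX
      have had := H81.adic_of_centre Q hpr (fun f => v.int_ev hjx hmx f) hpp hpd
      have hass : Associated p Polynomial.X :=
        hpr.irreducible.associated_of_dvd Polynomial.prime_X.irreducible (hpd _ hpX)
      have h4 := H81.IsAdic.self (H81.IsAdic.of_associated had hass)
      rw [ev_X] at h4
      omega

/-- The projective plane with the three coordinate lines is a log Calabi-Yau pair. -/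
theorem logCY_plane : LogCY PP (Set.range coordLine) where
  surface := Wit.hasDim
  normal := plane_normal PP PP_I
  duVal := fun p hp => Or.inl (plane_regular PP PP_I p hp.1)
  uniruled := Wit.uniruled
  snc := coordLines_snc PP PP_I
  canonical := by
    obtain ⟨ω, B, hω, hwd, hB⟩ := exists_B
    have hN : PP.Normal := plane_normal PP PP_I
    refine ⟨ω, hω, ?_, ?_⟩
    · intro C hC hCD
      obtain ⟨v, hv⟩ := br3 2 PP Wit.hasDim hN C hC
      obtain ⟨k, hk⟩ := H73.st_BR8 2 PP Wit.hasDim B v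
      obtain ⟨t, ht⟩ := v.exists_res
      obtain ⟨π, hπ0, hπ⟩ := v.exists_unif
      have hk' : B.Wt v k := ⟨t, π, ht, hπ0, hπ, hk t π ht hπ0 hπ⟩
      have h0 := (value hB hC hv hk').1 (fun l hl => hCD ⟨l, (line_of_mem hC hl).symm⟩)
      subst h0
      exact reg_mults Wit.hasDim hwd hv hk'
    · rintro C ⟨l, rfl⟩
      have hC : PP.IsCurveOn (coordLine l) := ⟨by rw [PP_I]; exact bot_le, coordLine_dim l⟩
      obtain ⟨v, hv⟩ := br3 2 PP Wit.hasDim hN (coordLine l) hC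
      obtain ⟨k, hk⟩ := H73.st_BR8 2 PP Wit.hasDim B v
      obtain ⟨t, ht⟩ := v.exists_res
      obtain ⟨π, hπ0, hπ⟩ := v.exists_unif
      have hk' : B.Wt v k := ⟨t, π, ht, hπ0, hπ, hk t π ht hπ0 hπ⟩
      have h0 := (value hB hC hv hk').2 ⟨l, Ideal.mem_span_singleton_self _⟩
      subst h0
      exact reg_maxMults Wit.hasDim hC.1 hwd hv hk'

end

end W97

end LCY
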